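import Pool.Agent.H6.Gap.AssignSmall

/-!
# The abstract selection theorem

Proof.  The relation `prec` is well founded, because `τ v < 3` (`InvImage` of the
lexicographic order by `v ↦ (3 - τ v, sc v)`).  As `R (τ v)` is not small and `exc lam v ρ` is
small, there is an element of `R (τ v)` outside `exc lam v ρ` (if `ρ u ∈ R (τ u)` for all `u`
with `prec u v`); `exc lam v ρ` depends only on the `ρ u` with `prec u v`.  So `exists_avoid`
gives `ρ` with `ρ v ∈ R (τ v)`, `ρ v ∉ exc lam v ρ` for all `v`.  Let `ξ`, `q` be given, and let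
`v` be the facing variable of smaller type, `v'` the other one.  As `ρ v' ∉ exc lam v' ρ` (take
`σ = ρ`), `{r ∈ R (τ v) | update ρ v r ∈ Bad ξ q}` is small.  As `ρ v ∉ exc lam v ρ` (take
`σ = ρ`), this shows `ρ ∉ Bad ξ q`.
-/

open Set Topology Cardinal

namespace Pool.Agent.H6.Gap

variable {Ξ D V Q : Type} [DecidableEq V] {R : ℕ → Set (ℕ → D)}

theorem Sel.prec_wf (S : Sel Ξ D V Q R) : WellFounded S.prec := by
  have h : WellFounded (InvImage (Prod.Lex (fun a b : ℕ => a < b) (fun a b : ℕ => a < b))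
      (fun v : V => (3 - S.τ v, S.sc v))) :=
    InvImage.wf _ (WellFounded.prod_lex Nat.lt_wfRel.wf Nat.lt_wfRel.wf)
  refine Subrelation.wf ?_ h
  intro u v huv
  change Prod.Lex (fun a b : ℕ => a < b) (fun a b : ℕ => a < b) (3 - S.τ u, S.sc u)
    (3 - S.τ v, S.sc v)
  have h1 := S.hτ3 u
  have h2 := S.hτ3 v
  rw [Prod.lex_def]
  rcases huv with h3 | ⟨h3, h4⟩
  · left
    change 3 - S.τ u < 3 - S.τ v
    omega
  · right
    refine ⟨?_, h4⟩
    change 3 - S.τ u = 3 - S.τ v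
    omega

theorem Sel.exc_congr (S : Sel Ξ D V Q R) {lam : ℕ → Cardinal.{0}} (v : V) {ρ ρ' : V → ℕ → D}
    (h : ∀ u, S.prec u v → ρ u = ρ' u) : S.exc lam v ρ ⊆ S.exc lam v ρ' := by
  rintro r ⟨hr, ξ, q, v', σ, hf, h1, h2, h3, h4⟩
  exact ⟨hr, ξ, q, v', σ, hf, fun u hu => (h1 u hu).trans (h u hu), h2, h3, h4⟩

theorem exists_assign [Countable V] [Countable Q] (S : Sel Ξ D V Q R) {lam : ℕ → Cardinal.{0}}
    (hP : IsPack Ξ R lam) :
    ∃ ρ : V → ℕ → D, (∀ v, ρ v ∈ R (S.τ v)) ∧ ∀ ξ q, ρ ∉ S.Bad ξ q := by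
  obtain ⟨x0, -⟩ := R_nonempty hP 0
  haveI : Nonempty (ℕ → D) := ⟨x0⟩
  obtain ⟨ρ, hρ⟩ := exists_avoid (V := V) (W := ℕ → D) S.prec S.prec_wf
    (fun v => R (S.τ v)) (fun v ρ => S.exc lam v ρ)
    (fun v ρ ρ' h => Set.Subset.antisymm (S.exc_congr v h)
      (S.exc_congr v fun u hu => (h u hu).symm))
    (by
      intro v ρ h
      by_contra hcon
      push Not at hcon
      exact hP.not_small (S.τ v) ((S.exc_small hP v ρ h).mono hcon))
  have hmain : ∀ ξ q v v', S.face q v v' → S.face q v' v → S.τ v < S.τ v' →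
      ρ ∉ S.Bad ξ q := by
    intro ξ q v v' hf hf' hlt hbad
    have h1 : ¬ S.isBad lam ξ q v' v ρ := by
      intro hb
      exact (hρ v').2 ⟨(hρ v').1, ξ, q, v, ρ, hf', fun _ _ => rfl, rfl, fun u _ => (hρ u).1, hb⟩
    have h2 : ¬ S.isBad lam ξ q v v' ρ := by
      intro hb
      exact (hρ v).2 ⟨(hρ v).1, ξ, q, v', ρ, hf, fun _ _ => rfl, rfl, fun u _ => (hρ u).1, hb⟩
    have h3 : Small (lam (S.τ v)) (R (S.τ v))
        {r ∈ R (S.τ v) | Function.update ρ v r ∈ S.Bad ξ q} := by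
      by_contra h4
      exact h1 (Or.inr ⟨hlt, h4⟩)
    exact h2 (Or.inl ⟨hlt, hbad, h3⟩)
  refine ⟨ρ, fun v => (hρ v).1, fun ξ q => ?_⟩
  rcases lt_or_gt_of_ne (S.hτ q) with h | h
  · exact hmain ξ q (S.w q) (S.w' q) (Or.inl ⟨rfl, rfl⟩) (Or.inr ⟨rfl, rfl⟩) h
  · exact hmain ξ q (S.w' q) (S.w q) (Or.inr ⟨rfl, rfl⟩) (Or.inl ⟨rfl, rfl⟩) h

end Pool.Agent.H6.Gap
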