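import Pool.Agent.H6.Gap.Defs

/-!
# Avoiding exceptional sets along a well-founded relation

Proof.  Define `ρ` by well-founded recursion (`WellFounded.fix`): if `ρ u` is defined for all
`u` with `r u v`, extend these values arbitrarily to a function `ρ' : V → W` (e.g. by
`if h : r u v then ρ u else Classical.arbitrary`; `W` is nonempty because of `hE`, or use
the element of `hE`; if `V` is empty there is nothing to do) and choose
`ρ v ∈ R v \ E v ρ'` if the hypothesis of `hE` holds for `ρ'`.  By well-founded induction and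
`hdep` the function `ρ` is as required.
-/

open Set Topology Cardinal

namespace Pool.Agent.H6.Gap

theorem exists_avoid {V W : Type} [Nonempty W] (r : V → V → Prop) (hr : WellFounded r)
    (R : V → Set W) (E : V → (V → W) → Set W)
    (hdep : ∀ v ρ ρ', (∀ u, r u v → ρ u = ρ' u) → E v ρ = E v ρ')
    (hE : ∀ v ρ, (∀ u, r u v → ρ u ∈ R u) → ∃ x ∈ R v, x ∉ E v ρ) :
    ∃ ρ : V → W, ∀ v, ρ v ∈ R v ∧ ρ v ∉ E v ρ := by
  classical
  let ext : (v : V) → ((u : V) → r u v → W) → V → W := fun v ih u =>
    if h : r u v then ih u h else Classical.arbitrary W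
  let F : (v : V) → ((u : V) → r u v → W) → W := fun v ih =>
    if h : ∀ u, r u v → ext v ih u ∈ R u then (hE v (ext v ih) h).choose
    else Classical.arbitrary W
  let ρ : V → W := hr.fix F
  have hρ : ∀ v, ρ v = F v (fun u _ => ρ u) := fun v => hr.fix_eq F v
  refine ⟨ρ, fun v => ?_⟩
  induction v using hr.induction with
  | _ v ih =>
    have h1 : ∀ u, r u v → ext v (fun u _ => ρ u) u = ρ u := fun u hu => dif_pos hu
    have h2 : ∀ u, r u v → ext v (fun u _ => ρ u) u ∈ R u := fun u hu => by
      rw [h1 u hu]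
      exact (ih u hu).1
    have h3 : ρ v = (hE v (ext v (fun u _ => ρ u)) h2).choose := by
      rw [hρ v]
      exact dif_pos h2
    obtain ⟨h4, h5⟩ := (hE v (ext v (fun u _ => ρ u)) h2).choose_spec
    rw [h3]
    refine ⟨h4, ?_⟩
    rw [hdep v ρ (ext v (fun u _ => ρ u)) (fun u hu => (h1 u hu).symm)]
    exact h5

end Pool.Agent.H6.Gap
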