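import Pool.Agent.H6.Gap.Rect
import Pool.Agent.H6.Gap.Avoid

/-!
# The abstract selection theorem: definitions

`V` is the countable set of variables, `τ v` the type and `sc v` the scale of a variable; `Q` is
the countable set of hubs; `w q` and `w' q` are the two facing variables of the hub `q`; they have
the same scale and different types.  `Bad ξ q` is a set of assignments, which depends only on the
values at the two facing variables, at the variables of smaller scale, and at the variables whose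
type is not one of the types of the facing variables.
-/

open Set Topology Cardinal

namespace Pool.Agent.H6.Gap

/-- The data of the selection problem. -/
structure Sel (Ξ D V Q : Type) [DecidableEq V] (R : ℕ → Set (ℕ → D)) where
  τ : V → ℕ
  sc : V → ℕ
  hτ3 : ∀ v, τ v < 3
  w : Q → V
  w' : Q → V
  hτ : ∀ q, τ (w q) ≠ τ (w' q)
  hsc : ∀ q, sc (w q) = sc (w' q)
  Bad : Ξ → Q → Set (V → ℕ → D)
  dep : ∀ ξ q ρ ρ', (∀ v, (v = w q ∨ v = w' q ∨ sc v < sc (w q) ∨
      (τ v ≠ τ (w q) ∧ τ v ≠ τ (w' q))) → ρ v = ρ' v) → ρ ∈ Bad ξ q → ρ' ∈ Bad ξ q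
  closed : ∀ ξ q (ρ : V → ℕ → D) a a', (∀ n : ℕ, ∃ b b', (∀ k < n, b k = a k ∧ b' k = a' k) ∧
      Function.update (Function.update ρ (w q) b) (w' q) b' ∈ Bad ξ q) →
      Function.update (Function.update ρ (w q) a) (w' q) a' ∈ Bad ξ q
  miss : ∀ ξ q (ρ : V → ℕ → D), (∀ v, v ≠ w q → v ≠ w' q → ρ v ∈ R (τ v)) →
      ρ (w q) ∉ R (τ (w q)) → ρ (w' q) ∉ R (τ (w' q)) → ρ ∉ Bad ξ q

variable {Ξ D V Q : Type} [DecidableEq V] {R : ℕ → Set (ℕ → D)}

/-- `u` is chosen before `v`: it has larger type, or the same type and smaller scale. -/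
def Sel.prec (S : Sel Ξ D V Q R) (u v : V) : Prop :=
  S.τ v < S.τ u ∨ (S.τ u = S.τ v ∧ S.sc u < S.sc v)

/-- `v` and `v'` are the two facing variables of the hub `q`, in this or the other order. -/
def Sel.face (S : Sel Ξ D V Q R) (q : Q) (v v' : V) : Prop :=
  (v = S.w q ∧ v' = S.w' q) ∨ (v = S.w' q ∧ v' = S.w q)

/-- The assignment `σ` is bad for the choice at `v`; `v'` is the other facing variable of `q`. -/
def Sel.isBad (S : Sel Ξ D V Q R) (lam : ℕ → Cardinal.{0}) (ξ : Ξ) (q : Q) (v v' : V)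
    (σ : V → ℕ → D) : Prop :=
  (S.τ v < S.τ v' ∧ σ ∈ S.Bad ξ q ∧
    Small (lam (S.τ v)) (R (S.τ v)) {r ∈ R (S.τ v) | Function.update σ v r ∈ S.Bad ξ q}) ∨
  (S.τ v' < S.τ v ∧
    ¬ Small (lam (S.τ v')) (R (S.τ v')) {r ∈ R (S.τ v') | Function.update σ v' r ∈ S.Bad ξ q})

/-- The exceptional set for the choice at `v`. -/
def Sel.exc (S : Sel Ξ D V Q R) (lam : ℕ → Cardinal.{0}) (v : V) (ρ : V → ℕ → D) :
    Set (ℕ → D) :=
  {r ∈ R (S.τ v) | ∃ (ξ : Ξ) (q : Q) (v' : V) (σ : V → ℕ → D), S.face q v v' ∧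
    (∀ u, S.prec u v → σ u = ρ u) ∧ σ v = r ∧ (∀ u, u ≠ v → σ u ∈ R (S.τ u)) ∧
    S.isBad lam ξ q v v' σ}

end Pool.Agent.H6.Gap
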