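import Pool.Agent.H6.Gap.AssignSmallA

/-!
# The exceptional sets are small

`isBad_congr`: whether `σ` is bad for `(ξ, q, v, v')` depends only on the values of `σ` at `v`, at
the `u` with `prec u v` and at the `u` with `τ u < τ v`.  Indeed by `dep` (used in both
directions) membership in `Bad ξ q` of `σ`, of `update σ v r` and of `update σ v' r` depends only
on the values at the facing variables, at the variables of smaller scale and at the
variables `u` with `τ u` different from the two facing types.  Let `u` be one of these, `u ≠ v`.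
If `u = v'`: its type differs from `τ v`, so `τ v < τ u` (then `prec u v`) or `τ u < τ v`.
If `sc u < sc v`: if `τ v ≤ τ u` then `prec u v`.  If `τ u` is not a facing type then
`τ u ≠ τ v`, so again `prec u v` or `τ u < τ v`.

`isBad_small`: for fixed `σ` (with `σ u ∈ R (τ u)` for all `u ≠ v`) the set of the
`r ∈ R (τ v)` with `isBad lam ξ q v v' (update σ v r)` is small.  Case `τ v < τ v'`: if `r` is in
the set then `{s ∈ R (τ v) | update (update σ v r) v s ∈ Bad ξ q} = {s ∈ R (τ v) | update σ v s ∈ Bad ξ q}`
is small, and `r` is one of its elements (so either the whole set is empty or it is contained in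
this small set).  Case `τ v' < τ v`: use `rect` with `i = τ v'`, `j = τ v` and
`C = {(a, b) | update (update σ v b) v' a ∈ Bad ξ q}`.  Closedness by `closed` (with the
roles of `w q` and `w' q` possibly exchanged, `Function.update_comm`), `hmiss` by `miss`.

`exc_small`: `exc lam v ρ` is contained in the union, over all `ξ : Ξ`, `q : Q`, the (at
most two) possible `v'` -- take the union over `b : Bool` or over all `v' : V`, as `V` is countable --
and all `g ∈ ∏ u with τ u < τ v, R (τ u)`, of the set of the `r ∈ R (τ v)` with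
`isBad lam ξ q v v' (update (mix g) v r)`, where `mix g u = ρ u` if `prec u v`, `mix g u = g u` if
`τ u < τ v`, and `mix g u` is a fixed element of `R (τ u)` otherwise (`R j` is nonempty by
`not_small`), if `S.face q v v'`.  By `isBad_congr` this is right, by `isBad_small` these sets
are small, and the number of the index quadruples is at most
`lam (τ v) * ℵ₀ * ℵ₀ * lam (τ v) ^ ℵ₀ ≤ lam (τ v)` (as `#(R i) ≤ 2 ^ #(R i) ≤ lam (τ v)` for `i < τ v`,
and `V` is countable).  Use `Small.iUnion`.
The hypothesis `hρ` gives `mix g u ∈ R (τ u)` for all `u ≠ v`.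
-/

open Set Topology Cardinal

namespace Pool.Agent.H6.Gap

variable {Ξ D V Q : Type} [DecidableEq V] {R : ℕ → Set (ℕ → D)}

theorem R_nonempty {lam : ℕ → Cardinal.{0}} (hP : IsPack Ξ R lam) (j : ℕ) : (R j).Nonempty := by
  by_contra h
  rw [Set.not_nonempty_iff_eq_empty] at h
  apply hP.not_small j
  refine ⟨PEmpty, fun i => i.elim, ?_, fun i => i.elim, ?_⟩
  · rw [Cardinal.mk_pempty]
    exact zero_le
  · rw [h]
    exact Set.empty_subset _

open Classical in
/-- The assignment which is `ρ` at the variables chosen before `v`, is `g` at the variables of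
smaller type, and is arbitrary elsewhere. -/
noncomputable def Sel.mix (S : Sel Ξ D V Q R) (v : V) (ρ : V → ℕ → D) (d : V → ℕ → D)
    (g : (u : {u : V // S.τ u < S.τ v}) → R (S.τ u.1)) (u : V) : ℕ → D :=
  if S.prec u v then ρ u else if h : S.τ u < S.τ v then (g ⟨u, h⟩).1 else d u

theorem Sel.exc_small [Countable V] [Countable Q] (S : Sel Ξ D V Q R) {lam : ℕ → Cardinal.{0}}
    (hP : IsPack Ξ R lam) (v : V) (ρ : V → ℕ → D) (hρ : ∀ u, S.prec u v → ρ u ∈ R (S.τ u)) :
    Small (lam (S.τ v)) (R (S.τ v)) (S.exc lam v ρ) := by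
  classical
  have hne : ∀ u : V, ∃ x, x ∈ R (S.τ u) := fun u => R_nonempty hP (S.τ u)
  choose d hd using hne
  let G := (u : {u : V // S.τ u < S.τ v}) → R (S.τ u.1)
  have hl := hP.aleph0_le (S.τ v)
  have hG : #G ≤ lam (S.τ v) := by
    calc #G = Cardinal.prod (fun u : {u : V // S.τ u < S.τ v} => #(R (S.τ u.1))) :=
          Cardinal.mk_pi _
      _ ≤ Cardinal.prod (fun _ : {u : V // S.τ u < S.τ v} => lam (S.τ v)) := by
          apply Cardinal.prod_le_prod
          intro u
          exact (Cardinal.cantor _).le.trans (hP.R_lt _ _ u.2)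
      _ = lam (S.τ v) ^ #{u : V // S.τ u < S.τ v} := Cardinal.prod_const' _ _
      _ ≤ lam (S.τ v) ^ ℵ₀ := by
          apply Cardinal.power_le_power_left
          · intro h0
            rw [h0] at hl
            exact absurd hl (not_le.2 Cardinal.aleph0_pos)
          · exact Cardinal.mk_le_aleph0
      _ ≤ lam (S.τ v) := hP.pow_le _
  have hκ : #(Ξ × Q × V × G) ≤ lam (S.τ v) := by
    simp only [Cardinal.mk_prod, Cardinal.lift_id]
    refine Cardinal.mul_le_of_le hl (hP.Xi_le _) ?_
    refine Cardinal.mul_le_of_le hl (Cardinal.mk_le_aleph0.trans hl) ?_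
    exact Cardinal.mul_le_of_le hl (Cardinal.mk_le_aleph0.trans hl) hG
  have key : ∀ i : Ξ × Q × V × G, Small (lam (S.τ v)) (R (S.τ v))
      {r ∈ R (S.τ v) | S.face i.2.1 v i.2.2.1 ∧
        S.isBad lam i.1 i.2.1 v i.2.2.1 (Function.update (S.mix v ρ d i.2.2.2) v r)} := by
    rintro ⟨ξ, q, v', g⟩
    by_cases hf : S.face q v v'
    · refine (S.isBad_small hP (ξ := ξ) hf (σ := S.mix v ρ d g) ?_).mono ?_
      · intro u _
        unfold Sel.mix
        split_ifs with h1 h2
        · exact hρ u h1
        · exact (g ⟨u, h2⟩).2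
        · exact hd u
      · rintro r ⟨hr, -, hb⟩
        exact ⟨hr, hb⟩
    · refine ⟨PEmpty, fun i => i.elim, ?_, fun i => i.elim, ?_⟩
      · rw [Cardinal.mk_pempty]
        exact zero_le
      · rintro r ⟨-, h, -⟩
        exact absurd h hf
  refine (Small.iUnion hl hκ key).mono ?_
  rintro r ⟨hr, ξ, q, v', σ, hf, h1, h2, h3, hb⟩
  rw [Set.mem_iUnion]
  have hne : ∀ u : {u : V // S.τ u < S.τ v}, u.1 ≠ v := by
    intro u h
    have hu := u.2
    rw [h] at hu
    exact lt_irrefl _ hu
  refine ⟨(ξ, q, v', fun u => ⟨σ u.1, h3 u.1 (hne u)⟩), hr, hf, ?_⟩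
  refine S.isBad_congr hf ?_ hb
  rintro u (rfl | hu | hu)
  · rw [Function.update_self, h2]
  · have huv : u ≠ v := by
      rintro rfl
      rcases hu with hu | ⟨-, hu⟩ <;> exact lt_irrefl _ hu
    rw [Function.update_of_ne huv]
    unfold Sel.mix
    rw [if_pos hu]
    exact h1 u hu
  · have huv : u ≠ v := hne ⟨u, hu⟩
    rw [Function.update_of_ne huv]
    have hnp : ¬ S.prec u v := by
      rintro (h | ⟨h, -⟩) <;> omega
    unfold Sel.mix
    rw [if_neg hnp, dif_pos hu]

end Pool.Agent.H6.Gap
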