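import Pool.Agent.H6.Gap.AssignDef

/-!
# The exceptional sets are small: one hub

The lemmas `isBad_congr` and `isBad_small`; for the proofs see the header of `AssignSmall.lean`.
-/

open Set Topology Cardinal

namespace Pool.Agent.H6.Gap

variable {Ξ D V Q : Type} [DecidableEq V] {R : ℕ → Set (ℕ → D)}

theorem Sel.smallA_face (S : Sel Ξ D V Q R) {q : Q} {v v' : V} (hf : S.face q v v') :
    S.τ v ≠ S.τ v' ∧ S.sc v = S.sc (S.w q) ∧ (∀ u, (u = S.w q ∨ u = S.w' q) ↔ (u = v ∨ u = v')) ∧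
      (∀ u, (S.τ u ≠ S.τ (S.w q) ∧ S.τ u ≠ S.τ (S.w' q)) → S.τ u ≠ S.τ v) := by
  rcases hf with ⟨rfl, rfl⟩ | ⟨rfl, rfl⟩
  · exact ⟨S.hτ q, rfl, fun u => Iff.rfl, fun u h => h.1⟩
  · exact ⟨(S.hτ q).symm, (S.hsc q).symm, fun u => or_comm, fun u h => h.2⟩

theorem Sel.smallA_cond (S : Sel Ξ D V Q R) {q : Q} {v v' : V} (hf : S.face q v v') (u : V)
    (hu : u = S.w q ∨ u = S.w' q ∨ S.sc u < S.sc (S.w q) ∨
      (S.τ u ≠ S.τ (S.w q) ∧ S.τ u ≠ S.τ (S.w' q))) :
    u = v ∨ S.prec u v ∨ S.τ u < S.τ v := by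
  obtain ⟨h1, h2, h3, h4⟩ := S.smallA_face hf
  rw [← or_assoc, h3 u, or_assoc, ← h2] at hu
  unfold Sel.prec
  rcases hu with rfl | rfl | hu | hu
  · exact Or.inl rfl
  · omega
  · omega
  · have h5 := h4 u hu
    omega

theorem Sel.smallA_iff (S : Sel Ξ D V Q R) (ξ : Ξ) {q : Q} {v v' : V} (hf : S.face q v v')
    {σ σ' : V → ℕ → D} (h : ∀ u, (u = v ∨ S.prec u v ∨ S.τ u < S.τ v) → σ u = σ' u) :
    σ ∈ S.Bad ξ q ↔ σ' ∈ S.Bad ξ q :=
  ⟨S.dep ξ q σ σ' fun u hu => h u (S.smallA_cond hf u hu),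
    S.dep ξ q σ' σ fun u hu => (h u (S.smallA_cond hf u hu)).symm⟩

theorem Sel.smallA_upd (S : Sel Ξ D V Q R) {v : V} {σ σ' : V → ℕ → D}
    (h : ∀ u, (u = v ∨ S.prec u v ∨ S.τ u < S.τ v) → σ u = σ' u) (x : V) (r : ℕ → D) :
    ∀ u, (u = v ∨ S.prec u v ∨ S.τ u < S.τ v) →
      Function.update σ x r u = Function.update σ' x r u := by
  intro u hu
  by_cases hx : u = x
  · rw [hx, Function.update_self, Function.update_self]
  · rw [Function.update_of_ne hx, Function.update_of_ne hx]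
    exact h u hu

theorem Sel.isBad_congr (S : Sel Ξ D V Q R) {lam : ℕ → Cardinal.{0}} {ξ : Ξ} {q : Q} {v v' : V}
    (hf : S.face q v v') {σ σ' : V → ℕ → D}
    (h : ∀ u, (u = v ∨ S.prec u v ∨ S.τ u < S.τ v) → σ u = σ' u)
    (hb : S.isBad lam ξ q v v' σ) : S.isBad lam ξ q v v' σ' := by
  have e : ∀ (x y : V), {r ∈ R (S.τ y) | Function.update σ x r ∈ S.Bad ξ q} =
      {r ∈ R (S.τ y) | Function.update σ' x r ∈ S.Bad ξ q} := by
    intro x y
    ext r
    have h1 := S.smallA_iff ξ hf (S.smallA_upd h x r)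
    constructor
    · rintro ⟨h2, h3⟩
      exact ⟨h2, h1.1 h3⟩
    · rintro ⟨h2, h3⟩
      exact ⟨h2, h1.2 h3⟩
  rcases hb with ⟨h1, h2, h3⟩ | ⟨h1, h2⟩
  · left
    rw [e v v] at h3
    exact ⟨h1, (S.smallA_iff ξ hf h).1 h2, h3⟩
  · right
    rw [e v' v'] at h2
    exact ⟨h1, h2⟩

theorem Sel.isBad_small (S : Sel Ξ D V Q R) {lam : ℕ → Cardinal.{0}} (hP : IsPack Ξ R lam)
    {ξ : Ξ} {q : Q} {v v' : V} (hf : S.face q v v') {σ : V → ℕ → D}
    (hσ : ∀ u, u ≠ v → σ u ∈ R (S.τ u)) :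
    Small (lam (S.τ v)) (R (S.τ v))
      {r ∈ R (S.τ v) | S.isBad lam ξ q v v' (Function.update σ v r)} := by
  obtain ⟨hne, -, -, -⟩ := S.smallA_face hf
  rcases lt_or_gt_of_ne hne with hlt | hlt
  · by_cases hT : ∃ r, r ∈ {r ∈ R (S.τ v) | S.isBad lam ξ q v v' (Function.update σ v r)}
    · obtain ⟨r, hr, hb⟩ := hT
      have hB : Small (lam (S.τ v)) (R (S.τ v))
          {s ∈ R (S.τ v) | Function.update σ v s ∈ S.Bad ξ q} := by
        rcases hb with ⟨-, -, h3⟩ | ⟨h1, -⟩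
        · have e : {s ∈ R (S.τ v) | Function.update (Function.update σ v r) v s ∈ S.Bad ξ q} =
              {s ∈ R (S.τ v) | Function.update σ v s ∈ S.Bad ξ q} := by
            ext s
            simp only [Set.mem_ofPred_eq, Function.update_idem]
          rw [e] at h3
          exact h3
        · omega
      refine hB.mono ?_
      rintro s ⟨hs, ⟨-, h2, -⟩ | ⟨h1, -⟩⟩
      · exact ⟨hs, h2⟩
      · omega
    · refine ⟨PEmpty, fun i => i.elim, ?_, fun i => i.elim, ?_⟩
      · rw [Cardinal.mk_pempty]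
        exact zero_le
      · intro r hr
        exact absurd ⟨r, hr⟩ hT
  · have hvv : v' ≠ v := by
      intro h
      rw [h] at hlt
      exact lt_irrefl _ hlt
    refine (rect hP hlt {p | Function.update (Function.update σ v p.2) v' p.1 ∈ S.Bad ξ q}
      ?_ ?_).mono ?_
    · intro a b hab
      show Function.update (Function.update σ v b) v' a ∈ S.Bad ξ q
      rcases hf with ⟨rfl, rfl⟩ | ⟨rfl, rfl⟩
      · refine S.closed ξ q σ b a fun n => ?_
        obtain ⟨a', b', h1, h2⟩ := hab n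
        exact ⟨b', a', fun k hk => ⟨(h1 k hk).2, (h1 k hk).1⟩, h2⟩
      · rw [Function.update_comm hvv.symm]
        refine S.closed ξ q σ a b fun n => ?_
        obtain ⟨a', b', h1, h2⟩ := hab n
        refine ⟨a', b', h1, ?_⟩
        rw [Function.update_comm hvv]
        exact h2
    · intro a b ha hb hC
      have h1 : Function.update (Function.update σ v b) v' a v' = a := Function.update_self _ _ _
      have h2 : Function.update (Function.update σ v b) v' a v = b := by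
        rw [Function.update_of_ne hvv.symm, Function.update_self]
      have h3 : ∀ u, u ≠ v → u ≠ v' →
          Function.update (Function.update σ v b) v' a u ∈ R (S.τ u) := by
        intro u hu hu'
        rw [Function.update_of_ne hu', Function.update_of_ne hu]
        exact hσ u hu
      have hC' : Function.update (Function.update σ v b) v' a ∈ S.Bad ξ q := hC
      rcases hf with ⟨rfl, rfl⟩ | ⟨rfl, rfl⟩
      · refine S.miss ξ q _ h3 ?_ ?_ hC'
        · rw [h2]
          exact hb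
        · rw [h1]
          exact ha
      · refine S.miss ξ q _ (fun u hu hu' => h3 u hu' hu) ?_ ?_ hC'
        · rw [h1]
          exact ha
        · rw [h2]
          exact hb
    · rintro r ⟨hr, ⟨h1, -⟩ | ⟨-, h2⟩⟩
      · omega
      · exact ⟨hr, h2⟩

end Pool.Agent.H6.Gap
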