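import Pool.Agent.H6.Gap.Defs

/-!
# Zero-dimensional compactifications

`finInd_of_profinite`: let `K` be a totally disconnected compact Hausdorff space.  Then `TrIndLE 0 K`:
for `A` closed, `V ⊇ A` open, `exists_clopen_of_closed_subset_open` gives a clopen `U`, whose
frontier is empty.

`exists_compactification`: let `I` be the type of the clopen subsets of `X` and
`e : X → (I → Bool)` the evaluation map `x ↦ (C ↦ decide (x ∈ C))`.  It is continuous, inducing (the
clopen sets form a base) and injective (`X` is `T0` and the clopen sets form a base).  Let `K` be
the closure of the range of `e`, a closed subset of the product of discrete two-point spaces, so it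
is compact, Hausdorff and totally disconnected.  `CountDim K`: take `S i = univ` for all `i`
(`univ` is homeomorphic to `K`, in particular it is a compact Hausdorff totally disconnected
space), and `univ` is a neighbourhood of every point.
-/

open Set Topology

namespace Pool.Agent.H6.Gap

theorem finInd_of_profinite (K : Type) [TopologicalSpace K] [CompactSpace K] [T2Space K]
    [TotallyDisconnectedSpace K] : FinInd K := by
  refine ⟨inferInstance, 0, ?_⟩
  rw [TrIndLE]
  intro A V hA hV hAV
  obtain ⟨C, hC, hAC, hCV⟩ := exists_clopen_of_closed_subset_open hA hV hAV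
  exact ⟨C, hC.isOpen, hAC, hCV, Or.inl hC.frontier_eq⟩

theorem finInd_univ (K : Type) [TopologicalSpace K] [CompactSpace K] [T2Space K]
    [TotallyDisconnectedSpace K] : FinInd (univ : Set K) := by
  have : CompactSpace (univ : Set K) := isCompact_iff_compactSpace.1 isCompact_univ
  exact finInd_of_profinite _

open Classical in
/-- the evaluation map -/
noncomputable def compEv (X : Type) [TopologicalSpace X] (x : X) :
    {C : Set X // IsClopen C} → Bool := fun C => decide (x ∈ C.1)

theorem compEv_continuous (X : Type) [TopologicalSpace X] : Continuous (compEv X) := by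
  classical
  refine continuous_pi fun C => ?_
  rw [continuous_bool_rng true]
  have : (fun x => compEv X x C) ⁻¹' {true} = C.1 := by
    ext x
    simp [compEv]
  rw [this]
  exact C.2

theorem compEv_inducing (X : Type) [TopologicalSpace X] (h : ZeroDim X) :
    IsInducing (compEv X) := by
  classical
  rw [isInducing_iff_nhds]
  intro x
  refine le_antisymm ((compEv_continuous X).tendsto x).le_comap ?_
  intro U hU
  obtain ⟨V, hVU, hV, hxV⟩ := mem_nhds_iff.1 hU
  obtain ⟨C, hC, hxC, hCV⟩ := h x V hV hxV
  refine Filter.mem_comap.2 ⟨{f | f ⟨C, hC⟩ = true}, ?_, ?_⟩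
  · refine IsOpen.mem_nhds ?_ ?_
    · have : {f : {C : Set X // IsClopen C} → Bool | f ⟨C, hC⟩ = true} =
          (fun f : {C : Set X // IsClopen C} → Bool => f ⟨C, hC⟩) ⁻¹' {true} := rfl
      rw [this]
      exact (isOpen_discrete _).preimage (continuous_apply _)
    · simpa [compEv] using hxC
  · intro y hy
    refine hVU (hCV ?_)
    simpa [compEv] using hy

theorem compEv_injective (X : Type) [TopologicalSpace X] [T0Space X] (h : ZeroDim X) :
    Function.Injective (compEv X) := (compEv_inducing X h).injective

theorem exists_compactification (X : Type) [TopologicalSpace X] [T0Space X] (h : ZeroDim X) :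
    ∃ (K : Type) (_ : TopologicalSpace K) (e : X → K), CompactSpace K ∧ T2Space K ∧
      IsDenseEmbedding e ∧ CountDim K ∧ ∀ y, y ∉ range e → ∃ O ∈ 𝓝 y, FinInd O := by
  have hcpt : CompactSpace (closure (range (compEv X))) :=
    isCompact_iff_compactSpace.1 isClosed_closure.isCompact
  refine ⟨closure (range (compEv X)), inferInstance,
    fun x => ⟨compEv X x, subset_closure (mem_range_self x)⟩, hcpt, inferInstance, ?_, ?_, ?_⟩
  · refine ⟨⟨?_, ?_⟩, ?_⟩
    · exact (compEv_inducing X h).codRestrict _
    · intro y
      rw [closure_subtype]
      have : ((↑) : closure (range (compEv X)) → _) ''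
          (range fun x => (⟨compEv X x, subset_closure (mem_range_self x)⟩ :
            closure (range (compEv X)))) = range (compEv X) := by
        rw [← range_comp]
        rfl
      rw [this]
      exact y.2
    · intro x y hxy
      exact compEv_injective X h (congrArg Subtype.val hxy)
  · exact ⟨fun _ => univ, fun _ => finInd_univ _, iUnion_const univ⟩
  · intro y _
    exact ⟨univ, Filter.univ_mem, finInd_univ _⟩

end Pool.Agent.H6.Gap
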