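import Pool.Agent.H6.Gap.Kxi

/-!
# Cube spaces of every dimension

`cube_zero`: `Xb` is a one-point space (`Unit`), `X = univ`.

`cube_succ`: let `S : CubeSpace n` and apply `exists_factor` to `Ξ = S.X` (a type); take
`Xb = S.Xb × W`, `X = S.X ×ˢ B`, `π = Fin.snoc (fun i z => S.π i z.1) (fun z => p z.2)` (or
`Fin.cons`).  `X` is `T0` and `ZeroDim` (products of clopen sets).
Let `G ⊇ X` be open.  For `x : S.X` put `G' x = {w | (x, w) ∈ G}`, an open set containing
`B`.  Let `s` be a common section and let `K = s '' Icc 0 1`, a compact set.  The set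
`H = {x | ∀ t ∈ Icc 0 1, (x, s t) ∈ G}` contains `S.X`, and it is open by
`generalized_tube_lemma`.  Let `c` be a cube in `H`, given by `S.cube`.
The cube for `G` is `u ↦ (c (the first n coordinates of u), s (the last coordinate of u))`.
-/

open Set Topology

namespace Pool.Agent.H6.Gap

theorem cube_zero : Nonempty (CubeSpace 0) := by
  refine ⟨{ Xb := Unit, top := inferInstance, X := univ, π := fun i => i.elim0,
            pm := inferInstance, t0 := inferInstance, zd := ?_, cont := fun i => i.elim0,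
            cube := ?_ }⟩
  · intro x U _ hx
    refine ⟨univ, isClopen_univ, mem_univ _, ?_⟩
    intro y _
    rwa [Subsingleton.elim y x]
  · intro G _ hG
    exact ⟨fun _ => (), continuous_const, fun _ => hG (mem_univ _), fun _ i => i.elim0⟩

theorem cube_zeroDim_prod {X Y : Type} [TopologicalSpace X] [TopologicalSpace Y] {A : Set X}
    {B : Set Y} (hA : ZeroDim A) (hB : ZeroDim B) : ZeroDim ↥(A ×ˢ B) := by
  intro x U hU hx
  let e := Homeomorph.Set.prod A B
  have hV : IsOpen (e.symm ⁻¹' U) := hU.preimage e.symm.continuous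
  have hx' : ((e x).1, (e x).2) ∈ e.symm ⁻¹' U := by
    change e.symm (e x) ∈ U
    rw [e.symm_apply_apply]
    exact hx
  obtain ⟨u, v, hu, hv, h1, h2, h3⟩ := isOpen_prod_iff.1 hV _ _ hx'
  obtain ⟨C1, hC1, m1, s1⟩ := hA (e x).1 u hu h1
  obtain ⟨C2, hC2, m2, s2⟩ := hB (e x).2 v hv h2
  refine ⟨e ⁻¹' (C1 ×ˢ C2), (hC1.prod hC2).preimage e.continuous, ⟨m1, m2⟩, ?_⟩
  intro y hy
  have h4 : e y ∈ e.symm ⁻¹' U := h3 ⟨s1 hy.1, s2 hy.2⟩
  have h5 : e.symm (e y) ∈ U := h4
  rwa [e.symm_apply_apply] at h5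

theorem cube_tube {X W : Type} [TopologicalSpace X] [TopologicalSpace W] {G : Set (X × W)}
    (hG : IsOpen G) {s : ℝ → W} (hs : Continuous s) :
    IsOpen {x : X | ∀ t ∈ Icc (0 : ℝ) 1, (x, s t) ∈ G} := by
  rw [isOpen_iff_forall_mem_open]
  intro x hx
  have hK : IsCompact (s '' Icc (0 : ℝ) 1) := isCompact_Icc.image hs
  have hsub : ({x} : Set X) ×ˢ (s '' Icc (0 : ℝ) 1) ⊆ G := by
    rintro ⟨a, b⟩ ⟨ha, hb⟩
    obtain ⟨t, ht, rfl⟩ := hb
    have ha' : a = x := ha
    subst ha'
    exact hx t ht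
  obtain ⟨u, v, hu, _, h1, h2, h3⟩ := generalized_tube_lemma isCompact_singleton hK hG hsub
  refine ⟨u, ?_, hu, h1 rfl⟩
  intro y hy t ht
  exact h3 ⟨hy, h2 ⟨t, ht, rfl⟩⟩

theorem cube_succ {n : ℕ} (S : CubeSpace n) : Nonempty (CubeSpace (n + 1)) := by
  obtain ⟨W, tW, B, p, pmW, t0B, zdB, hp, hsec⟩ := exists_factor S.X
  have t0S := S.t0
  refine ⟨{ Xb := S.Xb × W, top := inferInstance, X := S.X ×ˢ B,
            π := fun i z => if h : (i : ℕ) < n then S.π ⟨i, h⟩ z.1 else p z.2,
            pm := inferInstance, t0 := (Homeomorph.Set.prod S.X B).isEmbedding.t0Space,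
            zd := cube_zeroDim_prod S.zd zdB, cont := ?_, cube := ?_ }⟩
  · intro i
    by_cases h : (i : ℕ) < n
    · simp only [h, dif_pos]
      exact (S.cont _).comp continuous_fst
    · simp only [h, dif_neg, not_false_eq_true]
      exact hp.comp continuous_snd
  · intro G hG hXG
    obtain ⟨s, hs, hps, hsG⟩ := hsec (fun x => {w | (x.1, w) ∈ G})
      (fun x => hG.preimage (Continuous.prodMk continuous_const continuous_id))
      (fun x w hw => hXG ⟨x.2, hw⟩)
    obtain ⟨c, hc, hcH, hcp⟩ := S.cube {x | ∀ t ∈ Icc (0 : ℝ) 1, (x, s t) ∈ G}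
      (cube_tube hG hs) (fun x hx t _ => hsG ⟨x, hx⟩ t)
    refine ⟨fun u => (c (fun i => u i.castSucc), s (u (Fin.last n) : ℝ)), ?_, ?_, ?_⟩
    · exact Continuous.prodMk (hc.comp (continuous_pi fun i => continuous_apply _))
        (hs.comp (continuous_subtype_val.comp (continuous_apply _)))
    · intro u
      exact hcH _ _ (u (Fin.last n)).2
    · intro u i
      by_cases h : (i : ℕ) < n
      · simp only [h, dif_pos]
        rw [hcp]
        rfl
      · have hi : i = Fin.last n := by
          apply Fin.ext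
          have := i.2
          simp only [Fin.val_last]
          omega
        subst hi
        simp only [Fin.val_last, lt_irrefl, dif_neg, not_false_eq_true]
        exact hps _

theorem cube_all (n : ℕ) : Nonempty (CubeSpace n) := by
  induction n with
  | zero => exact cube_zero
  | succ n ih => exact ih.elim cube_succ

end Pool.Agent.H6.Gap
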