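import Mathlib

/-!
# Metrizable spaces with `ind = 0` and large `Ind` (problem MP_582b9d_gt)

Basic definitions of the project.  The plan of the whole proof:

* `Pack.lean`   : for every type `Ξ` there are a digit set `D`, sets of sequences
                  `R j ⊆ (ℕ → D)` and cardinals `lam j` (`j : ℕ`) with `IsPack Ξ R lam`.
* `Assign.lean` : the abstract selection theorem `exists_assign`.
* `Nhds.lean`, `Metr.lean`, `Dyad.lean`, `YBase.lean`, `Sec.lean`, `HubY.lean`, `HubDep.lean` :
                  the telescope space `Z D` over the real line, its subspace `Y` (which has a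
                  base of clopen sets) and the sections `sec`.
* `Kxi.lean`    : every family of open sets `G ξ ⊇ Y` (`ξ : Ξ`) has a common section of `Z D`.
* `Cube.lean`   : products; `CubeSpace n` exists for every `n`.
* `PM.lean`, `EssCube.lean`, `Descent.lean`, `Comp.lean`, `Main.lean` : the conclusion.
-/

open Set Topology Cardinal

namespace Pool.Agent.H6.Gap

noncomputable section

/-! ### Sequences of digits (the digit set `D` is discrete) -/

variable {D : Type}

/-- The closure of a set of sequences of digits, the digit set being discrete. -/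
def clo (P : Set (ℕ → D)) : Set (ℕ → D) :=
  {f | ∀ n : ℕ, ∃ g ∈ P, ∀ k < n, g k = f k}

/-- Closed sets of sequences of digits. -/
def SeqClosed (C : Set (ℕ → D)) : Prop := clo C ⊆ C

/-- `P` is covered by at most `lam` closed sets, all of them contained in `R`. -/
def Small (lam : Cardinal.{0}) (R P : Set (ℕ → D)) : Prop :=
  ∃ (ι : Type) (C : ι → Set (ℕ → D)), #ι ≤ lam ∧ (∀ i, SeqClosed (C i) ∧ C i ⊆ R) ∧ P ⊆ ⋃ i, C i

/-- The cardinal arithmetic used in the construction. -/
structure IsPack (Ξ : Type) (R : ℕ → Set (ℕ → D)) (lam : ℕ → Cardinal.{0}) : Prop where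
  aleph0_le : ∀ j, ℵ₀ ≤ lam j
  pow_le : ∀ j, lam j ^ ℵ₀ ≤ lam j
  Xi_le : ∀ j, #Ξ ≤ lam j
  R_lt : ∀ i j, i < j → 2 ^ #(R i) ≤ lam j
  not_small : ∀ j, ¬ Small (lam j) (R j) (R j)

/-! ### The telescope: variables `(n, i)`, `n : ℕ`, `i : ℤ`, located at `i / 2 ^ n` -/

/-- The support of the variable `(n, i)`: the open interval with centre `i / 2 ^ n` and
radius `1 / 2 ^ (n + 1)`. -/
def supp (n : ℕ) (i : ℤ) : Set ℝ := {t | |2 ^ n * t - i| < 1 / 2}

/-- The hub `(l, c)`: the common endpoint of `supp l c` and `supp l (c + 1)`.  Its own variables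
are `(l + 1 + k, 2 ^ k * (2 * c + 1))`, `k : ℕ`; they are located at the hub. -/
def hub (l : ℕ) (c : ℤ) : ℝ := (c + 1 / 2) / 2 ^ l

/-- The type (`0`, `1` or `2`) of the variable `(n, i)`. -/
def typ (n : ℕ) (i : ℤ) : ℕ := (((-1) ^ n * i) % 3).toNat

/-- Indices: a sequence of digits, a left label and a right label. -/
abbrev Idx (D : Type) : Type := (ℕ → D) × D × D

/-- The default index. -/
def dft (d0 : D) : Idx D := (fun _ => d0, d0, d0)

/-- The telescope space: a real number `t` and an index for every scale `n`. -/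
def Z (D : Type) : Type := ℝ × (ℕ → Idx D)

/-- The set of the points over `supp n i` with index `x` at scale `n`. -/
def cyl (n : ℕ) (i : ℤ) (x : Idx D) : Set (Z D) := {z | z.1 ∈ supp n i ∧ z.2 n = x}

instance instTopZ : TopologicalSpace (Z D) :=
  TopologicalSpace.generateFrom
    ({s | ∃ U : Set ℝ, IsOpen U ∧ s = (fun z : Z D => z.1) ⁻¹' U} ∪
      {s | ∃ (n : ℕ) (i : ℤ) (x : Idx D), s = cyl n i x})

/-- The conditions defining the subspace `Y` of `Z D`. -/
structure IsY (R : ℕ → Set (ℕ → D)) (d0 : D) (z : Z D) : Prop where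
  /-- the sequence of the index at scale `n` is in the set `R` of the right type -/
  mem : ∀ n i, z.1 ∈ supp n i → (z.2 n).1 ∈ R (typ n i)
  /-- no information at scale `l` over a hub of level `l` -/
  dflt : ∀ l c, z.1 = hub l c → z.2 l = dft d0
  /-- right labels of own variables to the right of the hub -/
  right : ∀ l c k, z.1 ∈ supp (l + 1 + k) (2 ^ k * (2 * c + 1)) → hub l c < z.1 →
    (z.2 (l + 1 + k)).2.2 = (z.2 l).1 k
  /-- left labels of own variables to the left of the hub -/
  left : ∀ l c k, z.1 ∈ supp (l + 1 + k) (2 ^ k * (2 * c + 1)) → z.1 < hub l c →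
    (z.2 (l + 1 + k)).2.1 = (z.2 l).1 k
  hubL : ∀ l c, z.1 = hub l c → (fun k => (z.2 (l + 1 + k)).2.1) ∉ R (typ l c)
  hubR : ∀ l c, z.1 = hub l c → (fun k => (z.2 (l + 1 + k)).2.2) ∉ R (typ l (c + 1))

/-- The subspace `Y`. -/
def Y (R : ℕ → Set (ℕ → D)) (d0 : D) : Set (Z D) := {z | IsY R d0 z}

/-- `lab d0 n F i` is `F l c k` if `(n, i) = (l + 1 + k, 2 ^ k * (2 * c + 1))`
is the `k`-th own variable of the hub `(l, c)`. -/
def lab (d0 : D) : ℕ → (ℕ → ℤ → ℕ → D) → ℤ → D
  | 0, _, _ => d0
  | n + 1, F, i =>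
    if i % 2 = 1 then F n ((i - 1) / 2) 0 else lab d0 n (fun l c k => F l c (k + 1)) (i / 2)

/-- The index at the variable `(n, i)` given by the assignment `ρ`. -/
def asec (d0 : D) (ρ : ℕ × ℤ → ℕ → D) (n : ℕ) (i : ℤ) : Idx D :=
  (ρ (n, i), lab d0 n (fun l c k => ρ (l, c) k) i, lab d0 n (fun l c k => ρ (l, c + 1) k) i)

open Classical in
/-- The section of the telescope given by the assignment `ρ`. -/
def sec (d0 : D) (ρ : ℕ × ℤ → ℕ → D) (t : ℝ) : Z D :=
  (t, fun n => if ∃ c, t = hub n c then dft d0 else asec d0 ρ n (round (2 ^ n * t)))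

/-! ### Dimension theory -/

/-- A base of clopen sets: `ind X ≤ 0`. -/
def ZeroDim (X : Type) [TopologicalSpace X] : Prop :=
  ∀ x : X, ∀ U : Set X, IsOpen U → x ∈ U → ∃ C : Set X, IsClopen C ∧ x ∈ C ∧ C ⊆ U

/-- `trInd X ≤ α` for an ordinal `α` (the empty space has `trInd = -1`, so
`trInd (frontier U) < α` means that the frontier is empty or `trInd (frontier U) ≤ β`
for some `β < α`). -/
def TrIndLE (α : Ordinal.{0}) (X : Type) [TopologicalSpace X] : Prop :=
  ∀ A V : Set X, IsClosed A → IsOpen V → A ⊆ V →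
    ∃ U : Set X, IsOpen U ∧ A ⊆ U ∧ U ⊆ V ∧
      (frontier U = ∅ ∨ ∃ β : Ordinal.{0}, ∃ _ : β < α, TrIndLE β (frontier U))
termination_by α

/-- A normal space of finite large inductive dimension. -/
def FinInd (X : Type) [TopologicalSpace X] : Prop :=
  NormalSpace X ∧ ∃ n : ℕ, TrIndLE n X

/-- A union of a sequence of subspaces of finite large inductive dimension. -/
def CountDim (X : Type) [TopologicalSpace X] : Prop :=
  ∃ S : ℕ → Set X, (∀ i, FinInd (S i)) ∧ ⋃ i, S i = Set.univ

/-- The `k`-th essentiality condition: there are no `k` pairs of separated sets `U i`, `V i`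
covering the space such that `f i < 2/3` on `U i` and `f i > 1/3` on `V i`. -/
def Ess {T : Type} [TopologicalSpace T] (f : ℕ → T → ℝ) (k : ℕ) : Prop :=
  ∀ U V : ℕ → Set T, (∀ i < k, Disjoint (closure (U i)) (V i)) →
    (∀ i < k, Disjoint (U i) (closure (V i))) →
    (∀ i < k, ∀ x ∈ U i, f i x < 2 / 3) → (∀ i < k, ∀ x ∈ V i, 1 / 3 < f i x) →
    ∃ x, ∀ i < k, x ∉ U i ∧ x ∉ V i

/-- A subspace `X` with a base of clopen sets of a pseudometrizable space `Xb` such that every
neighbourhood of `X` in `Xb` contains an `n`-dimensional cube, parametrized by given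
continuous functions `π i`. -/
structure CubeSpace (n : ℕ) where
  Xb : Type
  top : TopologicalSpace Xb
  X : Set Xb
  π : Fin n → Xb → ℝ
  pm : TopologicalSpace.PseudoMetrizableSpace Xb
  t0 : T0Space X
  zd : ZeroDim X
  cont : ∀ i, Continuous (π i)
  cube : ∀ G : Set Xb, IsOpen G → X ⊆ G → ∃ c : (Fin n → unitInterval) → Xb, Continuous c ∧
    (∀ s, c s ∈ G) ∧ ∀ s i, π i (c s) = (s i : ℝ)

attribute [instance] CubeSpace.top CubeSpace.pm

/-- The coordinate functions of a cube space, indexed by all natural numbers. -/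
def CubeSpace.fn {n : ℕ} (S : CubeSpace n) (i : ℕ) (x : S.X) : ℝ :=
  if h : i < n then S.π ⟨i, h⟩ x.1 else 0

end

end Pool.Agent.H6.Gap
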