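import Pool.Agent.H6.Gap.Defs

/-!
# Descent of transfinite dimension

`descent`: induction on `α` (generalizing everything else).  Apply the definition of
`TrIndLE α L` to `A = {x | f k (e x) ≤ 1/3}` and the open set `{x | f k (e x) < 1/2}`: we get an
open set `O` of `L`.  Let `F = frontier O`, `e' : F → T` the restriction of `e`,
`U' = Function.update U k (e '' O)`, `V' = Function.update V k (e '' (closure O)ᶜ)`.
These satisfy the hypotheses for `k + 1`:
* `e'` is inducing;
* `closure (e '' O)` is disjoint from `e '' (closure O)ᶜ`: as `e` is inducing, `e x ∈ closure (e '' O)`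
  implies `x ∈ closure O` (`IsInducing.closure_eq_preimage_closure_image`); similarly
  `e x ∈ closure (e '' (closure O)ᶜ)` implies `x ∈ closure ((closure O)ᶜ)`, which is disjoint from
  the open set `O`;
  NOTE: `e` need not be injective, so argue with points: if `y = e x = e x'` with `x ∈ closure O` and
  `x' ∈ (closure O)ᶜ` then `x` and `x'` are inseparable (`e` is inducing), and so both or neither
  are in the closed set `closure O` (similarly for the open set `O`).
* on `e '' O` we have `f k < 1/2 < 2/3`; on `e '' (closure O)ᶜ` we have `f k > 1/3`, because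
  `A ⊆ O`;
* cover: a point of the range of `e` is in `e '' O`, in `e '' (closure O)ᶜ` or in the image of the
  frontier of `O`.
If `frontier O = ∅` then `F` is empty, the cover is by the sets `U' i`, `V' i`, `i < k + 1`, and
`¬ Ess f (k + 1)`; take `m = 1 ≤ α + 1`.  Otherwise there is `β < α` with `TrIndLE β F`, and the
induction hypothesis gives `m' ≤ β + 1 ≤ α` with `¬ Ess f (k + 1 + m')`; take `m = m' + 1`.

`not_trIndLE` and `not_indLE` follow with `L = T`, `e = id`, `k = 0`.
-/

open Set Topology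

namespace Pool.Agent.H6.Gap

theorem descent {T : Type} [TopologicalSpace T] {f : ℕ → T → ℝ} (hf : ∀ i, Continuous (f i))
    (α : Ordinal.{0}) : ∀ (k : ℕ) (L : Type) [TopologicalSpace L] (e : L → T) (U V : ℕ → Set T),
      IsInducing e → (∀ i < k, Disjoint (closure (U i)) (V i)) →
      (∀ i < k, Disjoint (U i) (closure (V i))) →
      (∀ i < k, ∀ x ∈ U i, f i x < 2 / 3) → (∀ i < k, ∀ x ∈ V i, 1 / 3 < f i x) →
      (∀ x, x ∈ range e ∨ ∃ i < k, x ∈ U i ∨ x ∈ V i) →
      TrIndLE α L → ∃ m : ℕ, (m : Ordinal.{0}) ≤ α + 1 ∧ ¬ Ess f (k + m) := by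
  induction α using WellFoundedLT.induction with
  | ind α ih =>
  intro k L _ e U V he h1 h2 h3 h4 hcov hT
  rw [TrIndLE] at hT
  have hcont : Continuous (fun x => f k (e x)) := (hf k).comp he.continuous
  obtain ⟨O, hO, hAO, hOV, hfr⟩ := hT {x | f k (e x) ≤ 1 / 3} {x | f k (e x) < 1 / 2}
    (isClosed_le hcont continuous_const) (isOpen_lt hcont continuous_const)
    (fun x (hx : f k (e x) ≤ 1 / 3) => lt_of_le_of_lt hx (by norm_num))
  have hd1 : Disjoint (closure (e '' O)) (e '' (closure O)ᶜ) := by
    rw [Set.disjoint_left]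
    rintro _ hy ⟨x, hx, rfl⟩
    apply hx
    rw [he.closure_eq_preimage_closure_image O]
    exact hy
  have hd2 : Disjoint (e '' O) (closure (e '' (closure O)ᶜ)) := by
    rw [Set.disjoint_left]
    rintro _ ⟨x, hx, rfl⟩ hy
    have hy' : x ∈ closure ((closure O)ᶜ) := by
      rw [he.closure_eq_preimage_closure_image]
      exact hy
    rw [closure_compl] at hy'
    exact hy' (interior_mono subset_closure (hO.interior_eq.symm ▸ hx))
  have hU' : ∀ i < k, Function.update U k (e '' O) i = U i := fun i hi =>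
    Function.update_of_ne (by omega) _ _
  have hV' : ∀ i < k, Function.update V k (e '' (closure O)ᶜ) i = V i := fun i hi =>
    Function.update_of_ne (by omega) _ _
  have hUk : Function.update U k (e '' O) k = e '' O := Function.update_self _ _ _
  have hVk : Function.update V k (e '' (closure O)ᶜ) k = e '' (closure O)ᶜ :=
    Function.update_self _ _ _
  have g1 : ∀ i < k + 1, Disjoint (closure (Function.update U k (e '' O) i))
      (Function.update V k (e '' (closure O)ᶜ) i) := by
    intro i hi
    rcases Nat.lt_succ_iff_lt_or_eq.1 hi with h | rfl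
    · rw [hU' i h, hV' i h]
      exact h1 i h
    · rw [hUk, hVk]
      exact hd1
  have g2 : ∀ i < k + 1, Disjoint (Function.update U k (e '' O) i)
      (closure (Function.update V k (e '' (closure O)ᶜ) i)) := by
    intro i hi
    rcases Nat.lt_succ_iff_lt_or_eq.1 hi with h | rfl
    · rw [hU' i h, hV' i h]
      exact h2 i h
    · rw [hUk, hVk]
      exact hd2
  have g3 : ∀ i < k + 1, ∀ x ∈ Function.update U k (e '' O) i, f i x < 2 / 3 := by
    intro i hi
    rcases Nat.lt_succ_iff_lt_or_eq.1 hi with h | rfl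
    · rw [hU' i h]
      exact h3 i h
    · rw [hUk]
      rintro _ ⟨x, hx, rfl⟩
      have h5 : f i (e x) < 1 / 2 := hOV hx
      linarith
  have g4 : ∀ i < k + 1, ∀ x ∈ Function.update V k (e '' (closure O)ᶜ) i, 1 / 3 < f i x := by
    intro i hi
    rcases Nat.lt_succ_iff_lt_or_eq.1 hi with h | rfl
    · rw [hV' i h]
      exact h4 i h
    · rw [hVk]
      rintro _ ⟨x, hx, rfl⟩
      by_contra h5
      exact hx (subset_closure (hAO (not_lt.1 h5)))
  have g5 : ∀ x, x ∈ range (fun z : frontier O => e z.1) ∨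
      ∃ i < k + 1, x ∈ Function.update U k (e '' O) i ∨
        x ∈ Function.update V k (e '' (closure O)ᶜ) i := by
    intro y
    rcases hcov y with ⟨x, rfl⟩ | ⟨i, hi, h⟩
    · by_cases hx : x ∈ O
      · right
        refine ⟨k, Nat.lt_succ_self k, Or.inl ?_⟩
        rw [hUk]
        exact ⟨x, hx, rfl⟩
      · by_cases hx' : x ∈ closure O
        · left
          refine ⟨⟨x, ?_⟩, rfl⟩
          rw [hO.frontier_eq]
          exact ⟨hx', hx⟩
        · right
          refine ⟨k, Nat.lt_succ_self k, Or.inr ?_⟩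
          rw [hVk]
          exact ⟨x, hx', rfl⟩
    · right
      refine ⟨i, Nat.lt_succ_of_lt hi, ?_⟩
      rw [hU' i hi, hV' i hi]
      exact h
  rcases hfr with hfr | ⟨β, hβ, hTβ⟩
  · refine ⟨1, ?_, fun hE => ?_⟩
    · rw [Nat.cast_one]
      exact le_add_self
    · obtain ⟨x, hx⟩ := hE _ _ g1 g2 g3 g4
      rcases g5 x with ⟨⟨z, hz⟩, -⟩ | ⟨i, hi, h⟩
      · rw [hfr] at hz
        exact hz
      · rcases h with h | h
        · exact (hx i hi).1 h
        · exact (hx i hi).2 h
  · obtain ⟨m, hm, hE⟩ := ih β hβ (k + 1) (frontier O) (fun z => e z.1) _ _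
      (he.comp IsInducing.subtypeVal) g1 g2 g3 g4 g5 hTβ
    refine ⟨m + 1, ?_, ?_⟩
    · rw [Nat.cast_add, Nat.cast_one]
      have h5 : β + 1 ≤ α := Order.add_one_le_of_lt hβ
      exact add_le_add (hm.trans h5) le_rfl
    · have h6 : k + (m + 1) = k + 1 + m := by omega
      rw [h6]
      exact hE

theorem not_trIndLE {T : Type} [TopologicalSpace T] {f : ℕ → T → ℝ} (hf : ∀ i, Continuous (f i))
    (h : ∀ k, Ess f k) (α : Ordinal.{0}) : ¬ TrIndLE α T := by
  intro hT
  obtain ⟨m, -, hm⟩ := descent hf α 0 T id (fun _ => ∅) (fun _ => ∅) IsInducing.id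
    (fun i hi => absurd hi (Nat.not_lt_zero i)) (fun i hi => absurd hi (Nat.not_lt_zero i))
    (fun i hi => absurd hi (Nat.not_lt_zero i)) (fun i hi => absurd hi (Nat.not_lt_zero i))
    (fun x => Or.inl ⟨x, rfl⟩) hT
  exact hm (h _)

theorem not_indLE {T : Type} [TopologicalSpace T] {f : ℕ → T → ℝ} (hf : ∀ i, Continuous (f i))
    {n : ℕ} (h : ∀ k ≤ n + 1, Ess f k) : ¬ TrIndLE (n : Ordinal.{0}) T := by
  intro hT
  obtain ⟨m, hle, hm⟩ := descent hf n 0 T id (fun _ => ∅) (fun _ => ∅) IsInducing.id
    (fun i hi => absurd hi (Nat.not_lt_zero i)) (fun i hi => absurd hi (Nat.not_lt_zero i))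
    (fun i hi => absurd hi (Nat.not_lt_zero i)) (fun i hi => absurd hi (Nat.not_lt_zero i))
    (fun x => Or.inl ⟨x, rfl⟩) hT
  have hle' : m ≤ n + 1 := by exact_mod_cast hle
  exact hm (h _ (by omega))

end Pool.Agent.H6.Gap
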