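import Pool.Agent.H6.Gap.Defs

/-!
# Types

Modulo `3` we have `(-1)^(l+1+k) * 2^k * (2c+1) ≡ (-1)^l * (c + 2)` (as `2 ≡ -1`), so the three
types are the residues of `(-1)^l * c`, `(-1)^l * (c+1)`, `(-1)^l * (c + 2)`.
-/

namespace Pool.Agent.H6.Gap

theorem typ_lt_three (n : ℕ) (i : ℤ) : typ n i < 3 := by
  unfold typ
  generalize ((-1) ^ n * i : ℤ) = a
  omega

private theorem own_mod (l k : ℕ) (c : ℤ) :
    ((-1) ^ (l + 1 + k) * (2 ^ k * (2 * c + 1)) : ℤ) % 3 = ((-1) ^ l * (c + 2)) % 3 := by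
  have h1 : ((-1) ^ (l + 1 + k) * (2 ^ k * (2 * c + 1)) : ℤ) =
      (-1) ^ l * ((-2) ^ k * (-(2 * c + 1))) := by
    have h3 : ((-2 : ℤ)) ^ k = (-1) ^ k * 2 ^ k := by rw [← mul_pow]; norm_num
    rw [h3, pow_add, pow_add]
    ring
  have h2 : ((-2 : ℤ)) ^ k ≡ 1 [ZMOD 3] := by
    simpa using (show (-2 : ℤ) ≡ 1 [ZMOD 3] by decide).pow k
  have h4 : (-(2 * c + 1) : ℤ) ≡ c + 2 [ZMOD 3] := by
    unfold Int.ModEq
    omega
  have h5 : ((-1) ^ l * ((-2) ^ k * (-(2 * c + 1))) : ℤ) ≡ (-1) ^ l * (1 * (c + 2)) [ZMOD 3] :=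
    Int.ModEq.mul_left _ (h2.mul h4)
  rw [h1, one_mul] at *
  exact h5

theorem typ_ne (l : ℕ) (c : ℤ) : typ l c ≠ typ l (c + 1) := by
  unfold typ
  rcases neg_one_pow_eq_or ℤ l with h | h <;> rw [h] <;> omega

theorem typ_own_ne_left (l k : ℕ) (c : ℤ) : typ (l + 1 + k) (2 ^ k * (2 * c + 1)) ≠ typ l c := by
  unfold typ
  rw [own_mod]
  rcases neg_one_pow_eq_or ℤ l with h | h <;> rw [h] <;> omega

theorem typ_own_ne_right (l k : ℕ) (c : ℤ) :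
    typ (l + 1 + k) (2 ^ k * (2 * c + 1)) ≠ typ l (c + 1) := by
  unfold typ
  rw [own_mod]
  rcases neg_one_pow_eq_or ℤ l with h | h <;> rw [h] <;> omega

end Pool.Agent.H6.Gap
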