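import Pool.Agent.H6.Gap.Nhds

/-!
# Geometry of supports and hubs, part A

All statements are elementary; `hub l c = (c + 1/2) / 2 ^ l`, so `2 ^ l * hub l c = c + 1/2`.

* `hub_inj`: `(2 c + 1) * 2 ^ (l' + 1) = (2 c' + 1) * 2 ^ (l + 1)`, compare the powers of `2`.
* `hub_supp_cases`: if `hub l c ∈ supp n i` and `l ≤ n` then `l ≠ n` (distance of the
  half-integer `c + 1/2` to an integer is at least `1/2`), `n = l + 1 + k` and
  `2 ^ n * hub l c = 2 ^ k * (2 c + 1)` is an integer at distance `< 1/2` from `i`.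
* `supp_own_right`: with `T = 2 ^ l * t`: `|2 ^ (k+1) * T - 2 ^ k (2 c + 1)| < 1/2`, so
  `|T - (c + 1/2)| < 1/2 ^ (k + 2) ≤ 1/4` and `c + 1/2 < T`, hence `|T - (c + 1)| < 1/2`.
* `typ`: modulo `3` we have `(-1)^(l+1+k) * 2^k * (2c+1) ≡ (-1)^l * (c + 2)`
  (as `2 ≡ -1`), so the three types are `(-1)^l * c`, `(-1)^l * (c+1)`, `(-1)^l * (c + 2)`.
* `small_supp`: for all `n` large enough (`1 / 2 ^ n < ε`), and not of the one scale `l` for which
  `t` may be a hub of level `l`, take `i = round (2 ^ n * t)`.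
-/

open Set Topology

namespace Pool.Agent.H6.Gap

theorem DyadA_pow {a b : ℕ} {c c' : ℤ} (h : (2 : ℤ) ^ a * (2 * c + 1) = 2 ^ b * (2 * c' + 1)) :
    a = b ∧ c = c' := by
  have key : ∀ {a b : ℕ} {c c' : ℤ}, (2 : ℤ) ^ a * (2 * c + 1) = 2 ^ b * (2 * c' + 1) →
      ¬ a < b := by
    intro a b c c' h hab
    obtain ⟨m, rfl⟩ : ∃ m, b = a + (m + 1) := ⟨b - a - 1, by omega⟩
    rw [pow_add, mul_assoc] at h
    have h1 := mul_left_cancel₀ (pow_ne_zero a (two_ne_zero (α := ℤ))) h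
    have h2 : 2 * c + 1 = 2 * ((2 : ℤ) ^ m * (2 * c' + 1)) := by
      rw [h1]
      ring
    generalize (2 : ℤ) ^ m * (2 * c' + 1) = x at h2
    omega
  have h1 : a = b := le_antisymm (not_lt.1 (key h.symm)) (not_lt.1 (key h))
  subst h1
  have h2 := mul_left_cancel₀ (pow_ne_zero a (two_ne_zero (α := ℤ))) h
  exact ⟨rfl, by omega⟩

theorem DyadA_hub (l : ℕ) (c : ℤ) : (2 : ℝ) ^ l * hub l c = c + 1 / 2 := by
  unfold hub
  have : (2 : ℝ) ^ l ≠ 0 := by positivity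
  field_simp

theorem DyadA_hub' (l k : ℕ) (c : ℤ) :
    (2 : ℝ) ^ (l + 1 + k) * hub l c = ((2 ^ k * (2 * c + 1) : ℤ) : ℝ) := by
  have h := DyadA_hub l c
  push_cast
  calc (2 : ℝ) ^ (l + 1 + k) * hub l c = 2 ^ k * (2 * (2 ^ l * hub l c)) := by ring
    _ = 2 ^ k * (2 * c + 1) := by rw [h]; ring

theorem hub_inj {l l' : ℕ} {c c' : ℤ} (h : hub l c = hub l' c') : l = l' ∧ c = c' := by
  have h1 := DyadA_hub l c
  have h2 := DyadA_hub l' c'
  rw [h] at h1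
  have h3 : (2 : ℝ) ^ l' * (2 * c + 1) = 2 ^ l * (2 * c' + 1) := by
    have e1 : (2 * (c : ℝ) + 1) = 2 * (2 ^ l * hub l' c') := by rw [h1]; ring
    have e2 : (2 * (c' : ℝ) + 1) = 2 * (2 ^ l' * hub l' c') := by rw [h2]; ring
    rw [e1, e2]
    ring
  have h4 : (2 : ℤ) ^ l' * (2 * c + 1) = 2 ^ l * (2 * c' + 1) := by exact_mod_cast h3
  obtain ⟨h5, h6⟩ := DyadA_pow h4
  exact ⟨h5.symm, h6⟩

theorem own_unique {l k l' k' : ℕ} {c c' : ℤ} (h : l + 1 + k = l' + 1 + k')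
    (h' : (2 : ℤ) ^ k * (2 * c + 1) = 2 ^ k' * (2 * c' + 1)) : l = l' ∧ k = k' ∧ c = c' := by
  obtain ⟨h1, h2⟩ := DyadA_pow h'
  exact ⟨by omega, h1, h2⟩

theorem hub_not_supp (l : ℕ) (c i : ℤ) : hub l c ∉ supp l i := by
  intro h
  have h1 : |(2 : ℝ) ^ l * hub l c - i| < 1 / 2 := h
  rw [DyadA_hub, abs_lt] at h1
  rcases le_or_gt i c with h2 | h2
  · have h3 : (i : ℝ) ≤ c := by exact_mod_cast h2
    linarith [h1.2]
  · have h3 : (c : ℝ) + 1 ≤ i := by exact_mod_cast h2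
    linarith [h1.1]

theorem supp_or_hub (n : ℕ) (t : ℝ) : t ∈ supp n (round (2 ^ n * t)) ∨ ∃ c, t = hub n c := by
  have h1 : |(2 : ℝ) ^ n * t - round ((2 : ℝ) ^ n * t)| ≤ 1 / 2 := abs_sub_round _
  rcases h1.lt_or_eq with h2 | h2
  · exact Or.inl h2
  · right
    have hp : (2 : ℝ) ^ n ≠ 0 := by positivity
    rcases abs_choice ((2 : ℝ) ^ n * t - round ((2 : ℝ) ^ n * t)) with h3 | h3
    · refine ⟨round ((2 : ℝ) ^ n * t), ?_⟩
      rw [h3] at h2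
      unfold hub
      rw [eq_div_iff hp]
      linarith
    · refine ⟨round ((2 : ℝ) ^ n * t) - 1, ?_⟩
      rw [h3] at h2
      unfold hub
      rw [eq_div_iff hp]
      push_cast
      linarith

theorem hub_mem_own (l k : ℕ) (c : ℤ) : hub l c ∈ supp (l + 1 + k) (2 ^ k * (2 * c + 1)) := by
  show |(2 : ℝ) ^ (l + 1 + k) * hub l c - ((2 ^ k * (2 * c + 1) : ℤ) : ℝ)| < 1 / 2
  rw [DyadA_hub', sub_self, abs_zero]
  norm_num

theorem hub_supp_cases {l n : ℕ} {c i : ℤ} (h : hub l c ∈ supp n i) :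
    n < l ∨ ∃ k, n = l + 1 + k ∧ i = 2 ^ k * (2 * c + 1) := by
  rcases lt_trichotomy n l with h1 | h1 | h1
  · exact Or.inl h1
  · subst h1
    exact absurd h (hub_not_supp n c i)
  · right
    obtain ⟨k, rfl⟩ : ∃ k, n = l + 1 + k := ⟨n - l - 1, by omega⟩
    refine ⟨k, rfl, ?_⟩
    have h2 : |(2 : ℝ) ^ (l + 1 + k) * hub l c - i| < 1 / 2 := h
    rw [DyadA_hub', ← Int.cast_sub, ← Int.cast_abs] at h2
    have h3 : |2 ^ k * (2 * c + 1) - i| < 1 := by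
      have : ((|2 ^ k * (2 * c + 1) - i| : ℤ) : ℝ) < ((1 : ℤ) : ℝ) := by
        push_cast at h2 ⊢
        linarith
      exact_mod_cast this
    have h4 := Int.abs_lt_one_iff.1 h3
    omega

end Pool.Agent.H6.Gap
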