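import Pool.Agent.H6.Gap.DyadA

/-!
# Geometry of supports and hubs, part B

All statements are elementary; `hub l c = (c + 1/2) / 2 ^ l`, so `2 ^ l * hub l c = c + 1/2`.

* `hub_inj`: `(2 c + 1) * 2 ^ (l' + 1) = (2 c' + 1) * 2 ^ (l + 1)`, compare the powers of `2`.
* `hub_supp_cases`: if `hub l c ∈ supp n i` and `l ≤ n` then `l ≠ n` (distance of the
  half-integer `c + 1/2` to an integer is at least `1/2`), `n = l + 1 + k` and
  `2 ^ n * hub l c = 2 ^ k * (2 c + 1)` is an integer at distance `< 1/2` from `i`.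
* `supp_own_right`: with `T = 2 ^ l * t`: `|2 ^ (k+1) * T - 2 ^ k (2 c + 1)| < 1/2`, so
  `|T - (c + 1/2)| < 1/2 ^ (k + 2) ≤ 1/4` and `c + 1/2 < T`, hence `|T - (c + 1)| < 1/2`.
* `typ`: modulo `3` we have `(-1)^(l+1+k) * 2^k * (2c+1) ≡ (-1)^l * (c + 2)`
  (as `2 ≡ -1`), so the three types are `(-1)^l * c`, `(-1)^l * (c+1)`, `(-1)^l * (c + 2)`.
* `small_supp`: for all `n` large enough (`1 / 2 ^ n < ε`), and not of the one scale `l` for which
  `t` may be a hub of level `l`, take `i = round (2 ^ n * t)`.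
-/

open Set Topology

namespace Pool.Agent.H6.Gap

theorem DyadB_aux {l k : ℕ} {c : ℤ} {t : ℝ}
    (h : t ∈ supp (l + 1 + k) (2 ^ k * (2 * c + 1))) :
    |2 ^ l * t - (c + 1 / 2)| < 1 / 4 := by
  have h1 : |(2 : ℝ) ^ (l + 1 + k) * t - ((2 ^ k * (2 * c + 1) : ℤ) : ℝ)| < 1 / 2 := h
  have e1 : (2 : ℝ) ^ (l + 1 + k) * t - ((2 ^ k * (2 * c + 1) : ℤ) : ℝ) =
      (2 ^ k * 2) * (2 ^ l * t - (c + 1 / 2)) := by
    push_cast
    rw [pow_add, pow_add]
    ring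
  have hP : (1 : ℝ) ≤ 2 ^ k := one_le_pow₀ (by norm_num)
  rw [e1, abs_mul, abs_of_pos (by positivity)] at h1
  have h2 := abs_nonneg (2 ^ l * t - ((c : ℝ) + 1 / 2))
  nlinarith

theorem DyadB_hub_lt {l : ℕ} {c : ℤ} {t : ℝ} : hub l c < t ↔ (c : ℝ) + 1 / 2 < 2 ^ l * t := by
  unfold hub
  rw [div_lt_iff₀ (by positivity), mul_comm t]

theorem DyadB_lt_hub {l : ℕ} {c : ℤ} {t : ℝ} : t < hub l c ↔ 2 ^ l * t < (c : ℝ) + 1 / 2 := by
  unfold hub
  rw [lt_div_iff₀ (by positivity), mul_comm t]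

theorem supp_own_right {l k : ℕ} {c : ℤ} {t : ℝ} (h : t ∈ supp (l + 1 + k) (2 ^ k * (2 * c + 1)))
    (ht : hub l c < t) : t ∈ supp l (c + 1) := by
  have h1 := abs_lt.1 (DyadB_aux h)
  rw [DyadB_hub_lt] at ht
  show |2 ^ l * t - ((c + 1 : ℤ) : ℝ)| < 1 / 2
  push_cast
  rw [abs_lt]
  constructor <;> linarith [h1.1, h1.2]

theorem supp_own_left {l k : ℕ} {c : ℤ} {t : ℝ} (h : t ∈ supp (l + 1 + k) (2 ^ k * (2 * c + 1)))
    (ht : t < hub l c) : t ∈ supp l c := by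
  have h1 := abs_lt.1 (DyadB_aux h)
  rw [DyadB_lt_hub] at ht
  show |2 ^ l * t - (c : ℝ)| < 1 / 2
  rw [abs_lt]
  constructor <;> linarith [h1.1, h1.2]

theorem supp_bounds {n : ℕ} {i : ℤ} {t : ℝ} : t ∈ supp n i ↔ hub n (i - 1) < t ∧ t < hub n i := by
  rw [DyadB_hub_lt, DyadB_lt_hub]
  show |2 ^ n * t - (i : ℝ)| < 1 / 2 ↔ _
  rw [abs_lt]
  push_cast
  constructor
  · rintro ⟨h1, h2⟩
    constructor <;> linarith
  · rintro ⟨h1, h2⟩
    constructor <;> linarith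

/-- A hub `(l', c')` whose own variable of scale `n` is relevant at the hub `(l, c)`, where
`(l', c') ≠ (l, c)`, has smaller level, and the variable has scale `n < l`. -/
theorem own_relevant {l l' k : ℕ} {c c' : ℤ} (h : hub l c ∈ supp (l' + 1 + k) (2 ^ k * (2 * c' + 1)))
    (hne : hub l c ≠ hub l' c') : l' + 1 + k < l := by
  rcases hub_supp_cases h with h1 | ⟨k', h1, h2⟩
  · exact h1
  · obtain ⟨e1, _, e3⟩ := own_unique h1 h2
    exact absurd (by rw [e1, e3]) hne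

theorem DyadB_small {n : ℕ} {i : ℤ} {s t : ℝ} (hs : s ∈ supp n i) (ht : t ∈ supp n i) :
    |s - t| < 1 / 2 ^ n := by
  have hs' : |2 ^ n * s - (i : ℝ)| < 1 / 2 := hs
  have ht' : |2 ^ n * t - (i : ℝ)| < 1 / 2 := ht
  have h1 := abs_lt.1 hs'
  have h2 := abs_lt.1 ht'
  have hp : (0 : ℝ) < 2 ^ n := by positivity
  rw [lt_div_iff₀ hp, ← abs_of_pos hp, ← abs_mul, abs_lt]
  constructor <;> nlinarith [h1.1, h1.2, h2.1, h2.2]

theorem small_supp (t : ℝ) {ε : ℝ} (hε : 0 < ε) (N : ℕ) :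
    ∃ n ≥ N, ∃ i, t ∈ supp n i ∧ ∀ s ∈ supp n i, |s - t| < ε := by
  obtain ⟨m, hm⟩ := exists_pow_lt_of_lt_one hε (by norm_num : (1 / 2 : ℝ) < 1)
  have key : ∀ n ≥ max N m, ∀ i, t ∈ supp n i → ∀ s ∈ supp n i, |s - t| < ε := by
    intro n hn i hi s hs
    have h1 := DyadB_small hs hi
    have h2 : (1 / 2 : ℝ) ^ n ≤ (1 / 2 : ℝ) ^ m :=
      pow_le_pow_of_le_one (by norm_num) (by norm_num) (le_trans (le_max_right _ _) hn)
    have h3 : (1 : ℝ) / 2 ^ n = (1 / 2) ^ n := by rw [one_div_pow]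
    rw [h3] at h1
    linarith
  rcases supp_or_hub (max N m) t with h1 | ⟨c, h1⟩
  · exact ⟨max N m, le_max_left _ _, _, h1, key _ le_rfl _ h1⟩
  · rcases supp_or_hub (max N m + 1) t with h2 | ⟨c', h2⟩
    · exact ⟨max N m + 1, le_trans (le_max_left _ _) (Nat.le_succ _), _, h2,
        key _ (Nat.le_succ _) _ h2⟩
    · have h3 := (hub_inj (h1.symm.trans h2)).1
      omega

end Pool.Agent.H6.Gap
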