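import Pool.Agent.H6.Gap.PM

/-!
# Essentiality of the coordinate functions of a cube space

`ess_cube`: let `U i`, `V i` (`i < n`) be given subsets of `S.X`, and let `U' i`, `V' i` be their
images in `S.Xb`.  They are separated in `S.Xb`: `closure (U' i)` is disjoint from `V' i`
and `U' i` is disjoint from `closure (V' i)` (subspace topology).  As `S.Xb` is
completely normal (instance `CompletelyNormalSpace` of a pseudometrizable space;
`completely_normal`, `separatedNhds_iff_disjoint`) there are disjoint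
open sets `P i ⊇ U' i`, `N i ⊇ V' i` of `S.Xb`.  Put `P' i = P i ∩ {π i < 2/3}`,
`N' i = N i ∩ {1/3 < π i}`; still `U' i ⊆ P' i`, `V' i ⊆ N' i`.  Suppose there is no `x` as in the
claim.  Then the open set `G = ⋃ i, (P' i ∪ N' i)` contains `S.X`, so it contains a
cube `c`.  Apply `cube_cover` to the preimages of `P' i`, `N' i` under `c` (if `s i = 1` then
`π i (c s) = 1`, so `c s ∉ P' i`; if `s i = 0` then `c s ∉ N' i`): there is `s` with
`c s ∉ G`, a contradiction.

`ess_mono`: extend `U`, `V` by empty sets (for the indices `≥ k`).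
-/

open Set Topology

namespace Pool.Agent.H6.Gap

theorem ess_mono {T : Type} [TopologicalSpace T] {f : ℕ → T → ℝ} {k n : ℕ} (hkn : k ≤ n)
    (h : Ess f n) : Ess f k := by
  intro U V h1 h2 h3 h4
  obtain ⟨x, hx⟩ := h (fun i => if i < k then U i else ∅) (fun i => if i < k then V i else ∅)
    (fun i _ => by
      by_cases hi : i < k
      · simpa only [hi, if_true] using h1 i hi
      · simp [hi])
    (fun i _ => by
      by_cases hi : i < k
      · simpa only [hi, if_true] using h2 i hi
      · simp [hi])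
    (fun i _ x hx => by
      by_cases hi : i < k
      · simp only [hi, if_true] at hx
        exact h3 i hi x hx
      · simp [hi] at hx)
    (fun i _ x hx => by
      by_cases hi : i < k
      · simp only [hi, if_true] at hx
        exact h4 i hi x hx
      · simp [hi] at hx)
  refine ⟨x, fun i hi => ?_⟩
  have := hx i (lt_of_lt_of_le hi hkn)
  simpa only [hi, if_true] using this

theorem continuous_fn {n : ℕ} (S : CubeSpace n) (i : ℕ) : Continuous (S.fn i) := by
  unfold CubeSpace.fn
  by_cases h : i < n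
  · simp only [h, dif_pos]
    exact (S.cont ⟨i, h⟩).comp continuous_subtype_val
  · simp only [h, dif_neg, not_false_eq_true]
    exact continuous_const

theorem ess_cube_sep {X : Type} [TopologicalSpace X] {A : Set X} {U V : Set A}
    (h : Disjoint (closure U) V) :
    Disjoint (closure (Subtype.val '' U)) (Subtype.val '' V) := by
  rw [Set.disjoint_left] at h ⊢
  rintro x hx ⟨y, hy, rfl⟩
  refine h ?_ hy
  rw [Topology.IsInducing.subtypeVal.closure_eq_preimage_closure_image]
  exact hx

theorem ess_cube {n : ℕ} (S : CubeSpace n) : Ess S.fn n := by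
  intro U V h1 h2 h3 h4
  by_contra hcon
  push Not at hcon
  have hsep : ∀ i : Fin n, ∃ P N : Set S.Xb, IsOpen P ∧ IsOpen N ∧
      Subtype.val '' U i ⊆ P ∧ Subtype.val '' V i ⊆ N ∧ Disjoint P N := by
    intro i
    have e1 := ess_cube_sep (h1 i i.2)
    have e2 := (ess_cube_sep (h2 i i.2).symm).symm
    have e3 : SeparatedNhds (Subtype.val '' U i) (Subtype.val '' V i) := by
      rw [separatedNhds_iff_disjoint]
      exact CompletelyNormalSpace.completely_normal e1 e2
    obtain ⟨P, N, hP, hN, hUP, hVN, hd⟩ := e3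
    exact ⟨P, N, hP, hN, hUP, hVN, hd⟩
  choose P N hP hN hUP hVN hd using hsep
  set P' : Fin n → Set S.Xb := fun i => P i ∩ {x | S.π i x < 2 / 3} with hP'
  set N' : Fin n → Set S.Xb := fun i => N i ∩ {x | 1 / 3 < S.π i x} with hN'
  have oP : ∀ i, IsOpen (P' i) := fun i => (hP i).inter (isOpen_lt (S.cont i) continuous_const)
  have oN : ∀ i, IsOpen (N' i) := fun i => (hN i).inter (isOpen_lt continuous_const (S.cont i))
  have fne : ∀ (i : Fin n) (x : S.X), S.fn i x = S.π i x.1 := by
    intro i x
    unfold CubeSpace.fn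
    rw [dif_pos i.2]
  have hG : S.X ⊆ ⋃ i, (P' i ∪ N' i) := by
    intro x hx
    obtain ⟨i, hi, hi'⟩ := hcon ⟨x, hx⟩
    rw [Set.mem_iUnion]
    refine ⟨⟨i, hi⟩, ?_⟩
    by_cases hU : (⟨x, hx⟩ : S.X) ∈ U i
    · left
      refine ⟨hUP ⟨i, hi⟩ ⟨_, hU, rfl⟩, ?_⟩
      have := h3 i hi _ hU
      rw [fne ⟨i, hi⟩] at this
      exact this
    · right
      have hV := hi' hU
      refine ⟨hVN ⟨i, hi⟩ ⟨_, hV, rfl⟩, ?_⟩
      have := h4 i hi _ hV
      rw [fne ⟨i, hi⟩] at this
      exact this
  obtain ⟨c, hc, hcG, hcπ⟩ := S.cube _ (isOpen_iUnion fun i => (oP i).union (oN i)) hG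
  obtain ⟨s, hs⟩ := cube_cover (fun i => c ⁻¹' P' i) (fun i => c ⁻¹' N' i)
    (fun i => (oP i).preimage hc) (fun i => (oN i).preimage hc)
    (fun i => Disjoint.preimage c ((hd i).mono Set.inter_subset_left Set.inter_subset_left))
    (fun i s hsi hmem => by
      have h5 : S.π i (c s) < 2 / 3 := hmem.2
      rw [hcπ, hsi] at h5
      norm_num at h5)
    (fun i s hsi hmem => by
      have h5 : 1 / 3 < S.π i (c s) := hmem.2
      rw [hcπ, hsi] at h5
      norm_num at h5)
  obtain ⟨i, hi⟩ := Set.mem_iUnion.1 (hcG s)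
  rcases hi with hi | hi
  · exact (hs i).1 hi
  · exact (hs i).2 hi

end Pool.Agent.H6.Gap
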