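import Pool.Agent.H6.Gap.Sec

/-!
# Points of sections over hubs: dependence

`hub_dep`: the two points have the same first coordinate; at the scale `l` both are `dft d0`;
at a scale `n ≠ l` with `hub l c ∈ supp n i` (`supp_or_hub`, `hub_inj`) they are `asec d0 ρ n i` and
`asec d0 ρ' n i`.  By `hub_supp_cases` either `n < l`: then `asec d0 ρ n i` depends only on the
values of `ρ` at variables of scale `≤ n` (lemma: `lab d0 n F i` depends only on the `F l' c' k'`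
with `l' < n`); or `n = l + 1 + k`, `i = 2^k*(2c+1)`: then by `lab_own`
`asec d0 ρ n i = (ρ (n, i), ρ (l, c) k, ρ (l, c + 1) k)`.

`hub_open`: take `N` from `exists_basic` at the point `z = sec d0 ρ (hub l c)`.  If `ρ'` is as
in the statement, then `z' = sec d0 ρ' (hub l c)` has `z'.1 = z.1` and `z'.2 n = z.2 n` for all
`n < N` with `hub l c ∈ supp n i`, by the same computation: in the case `n = l + 1 + k` we have
`k < N`.
-/

open Set Topology

namespace Pool.Agent.H6.Gap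

variable {D : Type}

private theorem hubDep_lab (d0 : D) (n : ℕ) : ∀ (F F' : ℕ → ℤ → ℕ → D) (i : ℤ),
    (∀ l' < n, ∀ c' k', F l' c' k' = F' l' c' k') → lab d0 n F i = lab d0 n F' i := by
  induction n with
  | zero =>
    intro F F' i _
    rfl
  | succ n ih =>
    intro F F' i h
    unfold lab
    by_cases hi : i % 2 = 1
    · rw [if_pos hi, if_pos hi]
      exact h n (Nat.lt_succ_self n) _ _
    · rw [if_neg hi, if_neg hi]
      exact ih _ _ _ fun l' hl' c' k' => h l' (Nat.lt_succ_of_lt hl') c' (k' + 1)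

private theorem hubDep_low (d0 : D) {ρ ρ' : ℕ × ℤ → ℕ → D} {n : ℕ}
    (h : ∀ v : ℕ × ℤ, v.1 ≤ n → ρ v = ρ' v) (i : ℤ) : asec d0 ρ n i = asec d0 ρ' n i := by
  unfold asec
  rw [h (n, i) le_rfl,
    hubDep_lab d0 n (fun l c k => ρ (l, c) k) (fun l c k => ρ' (l, c) k) i
      (fun l' hl' c' k' => by rw [h (l', c') hl'.le]),
    hubDep_lab d0 n (fun l c k => ρ (l, c + 1) k) (fun l c k => ρ' (l, c + 1) k) i
      (fun l' hl' c' k' => by rw [h (l', c' + 1) hl'.le])]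

private theorem hubDep_own (d0 : D) (ρ : ℕ × ℤ → ℕ → D) (l k : ℕ) (c : ℤ) :
    asec d0 ρ (l + 1 + k) (2 ^ k * (2 * c + 1)) =
      (ρ (l + 1 + k, 2 ^ k * (2 * c + 1)), ρ (l, c) k, ρ (l, c + 1) k) := by
  unfold asec
  rw [lab_own, lab_own]

/-- equality of the values at one relevant variable -/
private theorem hubDep_val (d0 : D) {ρ ρ' : ℕ × ℤ → ℕ → D} {l n : ℕ} {c i : ℤ}
    (hs : hub l c ∈ supp n i) (h1 : ∀ v : ℕ × ℤ, v.1 < l → ρ v = ρ' v)
    (h2 : ∀ k, n = l + 1 + k → ρ (l + 1 + k, 2 ^ k * (2 * c + 1)) =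
      ρ' (l + 1 + k, 2 ^ k * (2 * c + 1)) ∧ ρ (l, c) k = ρ' (l, c) k ∧
      ρ (l, c + 1) k = ρ' (l, c + 1) k) : asec d0 ρ n i = asec d0 ρ' n i := by
  rcases hub_supp_cases hs with h | ⟨k, hk, hi⟩
  · exact hubDep_low d0 (fun v hv => h1 v (lt_of_le_of_lt hv h)) i
  · obtain ⟨h3, h4, h5⟩ := h2 k hk
    rw [hk, hi, hubDep_own, hubDep_own, h3, h4, h5]

theorem hub_dep (d0 : D) {ρ ρ' : ℕ × ℤ → ℕ → D} {l : ℕ} {c : ℤ}
    (h : ∀ v : ℕ × ℤ, (v = (l, c) ∨ v = (l, c + 1) ∨ v.1 < l ∨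
      ∃ k, v = (l + 1 + k, 2 ^ k * (2 * c + 1))) → ρ v = ρ' v) :
    sec d0 ρ (hub l c) = sec d0 ρ' (hub l c) := by
  refine Prod.ext rfl (funext fun n => ?_)
  rcases supp_or_hub n (hub l c) with hs | ⟨c', hc'⟩
  · rw [sec_snd d0 ρ hs, sec_snd d0 ρ' hs]
    refine hubDep_val d0 hs (fun v hv => h v (Or.inr (Or.inr (Or.inl hv)))) fun k _ => ⟨?_, ?_, ?_⟩
    · exact h _ (Or.inr (Or.inr (Or.inr ⟨k, rfl⟩)))
    · rw [h _ (Or.inl rfl)]
    · rw [h _ (Or.inr (Or.inl rfl))]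
  · obtain ⟨rfl, rfl⟩ := hub_inj hc'
    rw [sec_snd_hub, sec_snd_hub]

theorem hub_open (d0 : D) {G : Set (Z D)} (hG : IsOpen G) {ρ : ℕ × ℤ → ℕ → D} {l : ℕ} {c : ℤ}
    (h : sec d0 ρ (hub l c) ∈ G) :
    ∃ N : ℕ, ∀ ρ' : ℕ × ℤ → ℕ → D, (∀ v : ℕ × ℤ, v ≠ (l, c) → v ≠ (l, c + 1) → ρ' v = ρ v) →
      (∀ k < N, ρ' (l, c) k = ρ (l, c) k ∧ ρ' (l, c + 1) k = ρ (l, c + 1) k) →
      sec d0 ρ' (hub l c) ∈ G := by
  obtain ⟨ε, hε, N, hN⟩ := exists_basic hG h
  refine ⟨N, fun ρ' h1 h2 => hN _ ?_ ?_⟩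
  · show |hub l c - hub l c| < ε
    rw [sub_self, abs_zero]
    exact hε
  · intro n hn i hs
    have hs' : hub l c ∈ supp n i := hs
    rw [sec_snd d0 ρ hs', sec_snd d0 ρ' hs']
    refine hubDep_val d0 hs' (fun v hv => h1 v ?_ ?_) fun k hk => ⟨h1 _ ?_ ?_, ?_, ?_⟩
    · intro he
      rw [he] at hv
      exact lt_irrefl _ hv
    · intro he
      rw [he] at hv
      exact lt_irrefl _ hv
    · intro he
      have := congrArg Prod.fst he
      simp only at this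
      omega
    · intro he
      have := congrArg Prod.fst he
      simp only at this
      omega
    · exact (h2 k (by omega)).1
    · exact (h2 k (by omega)).2

end Pool.Agent.H6.Gap
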