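import Pool.Agent.H6.Gap.Sec

/-!
# Points of sections over hubs

`hub_mem_Y`: Let `z = sec d0 ρ (hub l c)`.
* `mem`: if `hub l c ∈ supp n i` then `(n, i)` is neither `(l, c)` nor `(l, c + 1)` by
  `hub_not_supp`, and `(z.2 n).1 = ρ (n, i)`.
* `dflt`: if `hub l c = hub l' c'` then `l' = l` (`hub_inj`), `sec_snd_hub`.
* `right`: suppose `hub l c ∈ supp (l'+1+k) (2^k*(2c'+1))` and `hub l' c' < hub l c`.
  By `sec_right` the left hand side is `ρ (l', c' + 1) k`; by `supp_own_right`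
  `hub l c ∈ supp l' (c' + 1)`, so by `sec_snd` the right hand side is `ρ (l', c' + 1) k` too.
* `left` is similar.
* `hubL`: if `hub l c = hub l' c'` then `l' = l`, `c' = c`, and by `hub_mem_own` and `sec_left`
  the sequence is `ρ (l, c)`, which is not in `R (typ l c)`. `hubR` is similar.
-/

open Set Topology

namespace Pool.Agent.H6.Gap

variable {D : Type}

theorem hub_mem_Y {R : ℕ → Set (ℕ → D)} (d0 : D) {ρ : ℕ × ℤ → ℕ → D} {l : ℕ} {c : ℤ}
    (hρ : ∀ v : ℕ × ℤ, v ≠ (l, c) → v ≠ (l, c + 1) → ρ v ∈ R (typ v.1 v.2))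
    (h1 : ρ (l, c) ∉ R (typ l c)) (h2 : ρ (l, c + 1) ∉ R (typ l (c + 1))) :
    sec d0 ρ (hub l c) ∈ Y R d0 := by
  have hfst : (sec d0 ρ (hub l c)).1 = hub l c := rfl
  refine ⟨?_, ?_, ?_, ?_, ?_, ?_⟩
  · intro n i h
    rw [hfst] at h
    rw [sec_snd d0 ρ h]
    refine hρ (n, i) ?_ ?_
    · intro e
      obtain ⟨rfl, rfl⟩ := Prod.mk.inj e
      exact hub_not_supp _ _ _ h
    · intro e
      obtain ⟨rfl, rfl⟩ := Prod.mk.inj e
      exact hub_not_supp _ _ _ h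
  · intro l' c' h
    rw [hfst] at h
    obtain ⟨rfl, rfl⟩ := hub_inj h
    exact sec_snd_hub d0 ρ _ _
  · intro l' c' k h hlt
    rw [hfst] at h hlt
    rw [sec_right d0 ρ h, sec_snd d0 ρ (supp_own_right h hlt)]
    rfl
  · intro l' c' k h hlt
    rw [hfst] at h hlt
    rw [sec_left d0 ρ h, sec_snd d0 ρ (supp_own_left h hlt)]
    rfl
  · intro l' c' h
    rw [hfst] at h
    obtain ⟨rfl, rfl⟩ := hub_inj h
    have e : (fun k => ((sec d0 ρ (hub l c)).2 (l + 1 + k)).2.1) = ρ (l, c) :=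
      funext fun k => sec_left d0 ρ (hub_mem_own l k c)
    rw [e]
    exact h1
  · intro l' c' h
    rw [hfst] at h
    obtain ⟨rfl, rfl⟩ := hub_inj h
    have e : (fun k => ((sec d0 ρ (hub l c)).2 (l + 1 + k)).2.2) = ρ (l, c + 1) :=
      funext fun k => sec_right d0 ρ (hub_mem_own l k c)
    rw [e]
    exact h2

end Pool.Agent.H6.Gap
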