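import Pool.Agent.H6.Gap.PackA

/-!
# Existence of packs

`exists_pack`: choose for every cardinal `lam` such a pair `D lam`, `R lam`.  Let
`lam 0 = 2 ^ max ℵ₀ #Ξ`, `lam (j + 1) = 2 ^ max (lam j) (2 ^ #(R (lam j)))`, let
`D = Σ j, D (lam j)` (together with one more point `d0`: use `Option (Σ j, D (lam j))` or
`Unit ⊕ ...`, to have a point `d0 : D`) and let `R j` be the image of `R (lam j)` under
composition with the inclusion `D (lam j) → D`.  `lam j ^ ℵ₀ = 2 ^ (_ * ℵ₀) = lam j`.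
`not_small`: if closed sets `C i ⊆ R j` of `ℕ → D` cover `R j`, then their preimages in
`ℕ → D (lam j)` are closed, contained in `R (lam j)` and cover it.
-/

open Set Topology Cardinal

namespace Pool.Agent.H6.Gap

/-- the recursion for the cardinals, `r` is the map `lam ↦ #(R lam)` -/
noncomputable def packLam (ξ : Cardinal.{0}) (r : Cardinal.{0} → Cardinal.{0}) : ℕ → Cardinal.{0}
  | 0 => 2 ^ max ℵ₀ ξ
  | j + 1 => 2 ^ max (packLam ξ r j) (2 ^ r (packLam ξ r j))

theorem packLam_le_succ (ξ : Cardinal.{0}) (r : Cardinal.{0} → Cardinal.{0}) (j : ℕ) :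
    packLam ξ r j ≤ packLam ξ r (j + 1) :=
  (le_max_left _ _).trans (Cardinal.cantor _).le

theorem packLam_mono (ξ : Cardinal.{0}) (r : Cardinal.{0} → Cardinal.{0}) :
    Monotone (packLam ξ r) :=
  monotone_nat_of_le_succ (packLam_le_succ ξ r)

theorem packLam_aleph0 (ξ : Cardinal.{0}) (r : Cardinal.{0} → Cardinal.{0}) (j : ℕ) :
    ℵ₀ ≤ packLam ξ r j :=
  ((le_max_left ℵ₀ ξ).trans (Cardinal.cantor _).le).trans (packLam_mono ξ r (Nat.zero_le j))

theorem packLam_xi (ξ : Cardinal.{0}) (r : Cardinal.{0} → Cardinal.{0}) (j : ℕ) :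
    ξ ≤ packLam ξ r j :=
  ((le_max_right ℵ₀ ξ).trans (Cardinal.cantor _).le).trans (packLam_mono ξ r (Nat.zero_le j))

theorem packLam_r (ξ : Cardinal.{0}) (r : Cardinal.{0} → Cardinal.{0}) {i j : ℕ} (h : i < j) :
    2 ^ r (packLam ξ r i) ≤ packLam ξ r j :=
  ((le_max_right _ _).trans (Cardinal.cantor _).le).trans (packLam_mono ξ r h)

theorem pack_two_pow {κ : Cardinal.{0}} (h : ℵ₀ ≤ κ) : ((2 : Cardinal.{0}) ^ κ) ^ ℵ₀ ≤ 2 ^ κ := by
  rw [← Cardinal.power_mul, Cardinal.mul_eq_left h h Cardinal.aleph0_ne_zero]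

theorem packLam_pow (ξ : Cardinal.{0}) (r : Cardinal.{0} → Cardinal.{0}) (j : ℕ) :
    packLam ξ r j ^ ℵ₀ ≤ packLam ξ r j := by
  cases j with
  | zero => exact pack_two_pow (le_max_left _ _)
  | succ j => exact pack_two_pow ((packLam_aleph0 ξ r j).trans (le_max_left _ _))

theorem pack_small {D D' : Type} (f : D → D') (hf : Function.Injective f) {lam : Cardinal.{0}}
    {R : Set (ℕ → D)}
    (h : Small lam ((fun g n => f (g n)) '' R) ((fun g n => f (g n)) '' R)) : Small lam R R := by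
  obtain ⟨ι, C, hι, hC, hcov⟩ := h
  have hinj : Function.Injective (fun (g : ℕ → D) n => f (g n)) := by
    intro g g' hg
    funext n
    exact hf (congrFun hg n)
  refine ⟨ι, fun i => {g | (fun n => f (g n)) ∈ C i}, hι, fun i => ⟨?_, ?_⟩, ?_⟩
  · intro g hg
    apply (hC i).1
    intro n
    obtain ⟨g', hg', hk⟩ := hg n
    exact ⟨fun n => f (g' n), hg', fun k hkn => congrArg f (hk k hkn)⟩
  · intro g hg
    obtain ⟨g', hg', hk⟩ := (hC i).2 hg
    rwa [← hinj hk]
  · intro g hg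
    obtain ⟨i, hi⟩ := Set.mem_iUnion.mp (hcov ⟨g, hg, rfl⟩)
    exact Set.mem_iUnion.mpr ⟨i, hi⟩

theorem exists_pack (Ξ : Type) :
    ∃ (D : Type) (_ : D) (R : ℕ → Set (ℕ → D)) (lam : ℕ → Cardinal.{0}), IsPack Ξ R lam := by
  choose D R hR using exists_not_small
  obtain ⟨lam, hlam⟩ : ∃ lam : ℕ → Cardinal.{0}, lam = packLam (#Ξ) (fun l => #(R l)) := ⟨_, rfl⟩
  refine ⟨Option (Σ j, D (lam j)), none,
    fun j => (fun (g : ℕ → D (lam j)) n => (some ⟨j, g n⟩ : Option (Σ j, D (lam j)))) '' R (lam j),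
    lam, ?_, ?_, ?_, ?_, ?_⟩
  · intro j
    rw [hlam]
    exact packLam_aleph0 _ _ j
  · intro j
    rw [hlam]
    exact packLam_pow _ _ j
  · intro j
    rw [hlam]
    exact packLam_xi _ _ j
  · intro i j hij
    have h1 : 2 ^ #(R (lam i)) ≤ lam j := by
      have h2 := packLam_r (#Ξ) (fun l => #(R l)) hij
      rw [← hlam] at h2
      exact h2
    exact (Cardinal.power_le_power_left two_ne_zero Cardinal.mk_image_le).trans h1
  · intro j h
    refine hR (lam j) (pack_small (fun x : D (lam j) =>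
      (some ⟨j, x⟩ : Option (Σ j, D (lam j)))) ?_ h)
    intro x y hxy
    have h1 := Option.some.inj hxy
    exact eq_of_heq (Sigma.mk.inj h1).2

end Pool.Agent.H6.Gap
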