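import Pool.Agent.H6.Gap.Nhds

/-!
# The telescope space is pseudometrizable

Proof.  For a type `K` put on `K × ℝ` (or on `K × {x : ℝ // 0 ≤ x}`) the hedgehog pseudometric:
`dist (k, x) (k', x') = |x - x'|` if `k = k'`, and `|x| + |x'|` otherwise (with `x, x' ≥ 0`).
Let `h n t = max 0 (1/2 - |2 ^ n * t - round (2 ^ n * t)|)`, so that `h n t > 0` iff
`t ∈ supp n (round (2 ^ n * t))` and `h n` is continuous (it is the distance of `2 ^ n * t` to the
half-integers; alternatively use, instead of `h n`, any continuous function with these properties;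
e.g. `h n t = |cos (π * 2 ^ n * t)|`, which vanishes exactly at the hubs of level `n`).
Map `z : Z D` to `(z.1, fun n => ((round (2 ^ n * z.1), z.2 n), h n z.1))` in
`ℝ × (ℕ → hedgehog (ℤ × Idx D))`, a pseudometrizable space.  This map `φ` is inducing:
it is continuous by `exists_basic`/`isOpen_cyl` (at a point with `h n z.1 = 0` use that `h n` is
continuous; at a point with `h n z.1 > 0` the first coordinates are locally constant on
`cyl n i x`), and if `G` is open and `z ∈ G`, then with `ε`, `N` from `exists_basic`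
the set of the `z'` with `|z'.1 - z.1| < ε` and
`dist (φ z' n) (φ z n) < h n z.1` for all `n < N` with `h n z.1 > 0` is contained in `G`.
Then use `IsInducing.pseudoMetrizableSpace`.
-/

open Set Topology

namespace Pool.Agent.H6.Gap

variable {D : Type}

noncomputable section

/-- the hedgehog with the set of spines `K` -/
structure Metr_Hed (K : Type) where
  k : K
  x : ℝ
  hx : 0 ≤ x

open Classical in
def Metr_dist {K : Type} (a b : Metr_Hed K) : ℝ := if a.k = b.k then |a.x - b.x| else a.x + b.x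

theorem Metr_dist_eq {K : Type} {a b : Metr_Hed K} (h : a.k = b.k) :
    Metr_dist a b = |a.x - b.x| := if_pos h

theorem Metr_dist_ne {K : Type} {a b : Metr_Hed K} (h : a.k ≠ b.k) :
    Metr_dist a b = a.x + b.x := if_neg h

theorem Metr_dist_le {K : Type} (a b : Metr_Hed K) : Metr_dist a b ≤ a.x + b.x := by
  by_cases h : a.k = b.k
  · rw [Metr_dist_eq h, abs_le]
    have h1 := a.hx
    have h2 := b.hx
    constructor <;> linarith
  · rw [Metr_dist_ne h]

theorem Metr_le_dist {K : Type} (a b : Metr_Hed K) : |a.x - b.x| ≤ Metr_dist a b := by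
  by_cases h : a.k = b.k
  · rw [Metr_dist_eq h]
  · rw [Metr_dist_ne h, abs_le]
    have h1 := a.hx
    have h2 := b.hx
    constructor <;> linarith

theorem Metr_dist_comm {K : Type} (a b : Metr_Hed K) : Metr_dist a b = Metr_dist b a := by
  by_cases h : a.k = b.k
  · rw [Metr_dist_eq h, Metr_dist_eq h.symm, abs_sub_comm]
  · rw [Metr_dist_ne h, Metr_dist_ne (Ne.symm h), add_comm]

theorem Metr_dist_triangle {K : Type} (a b c : Metr_Hed K) :
    Metr_dist a c ≤ Metr_dist a b + Metr_dist b c := by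
  by_cases hac : a.k = c.k
  · rw [Metr_dist_eq hac]
    calc |a.x - c.x| = |(a.x - b.x) + (b.x - c.x)| := by congr 1; ring
      _ ≤ |a.x - b.x| + |b.x - c.x| := abs_add_le _ _
      _ ≤ _ := add_le_add (Metr_le_dist a b) (Metr_le_dist b c)
  · rw [Metr_dist_ne hac]
    by_cases hab : a.k = b.k
    · have hbc : b.k ≠ c.k := fun h => hac (hab.trans h)
      rw [Metr_dist_ne hbc]
      have h1 := le_abs_self (a.x - b.x)
      rw [← Metr_dist_eq hab] at h1
      linarith
    · rw [Metr_dist_ne hab]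
      have h1 := Metr_le_dist b c
      have h2 := neg_abs_le (b.x - c.x)
      linarith

instance Metr_inst (K : Type) : PseudoMetricSpace (Metr_Hed K) where
  dist := Metr_dist
  dist_self a := by rw [Metr_dist_eq rfl, sub_self, abs_zero]
  dist_comm := Metr_dist_comm
  dist_triangle := Metr_dist_triangle

/-- the points which are in no support of level `n` -/
def Metr_S (n : ℕ) : Set ℝ := {t | ∀ i : ℤ, t ∉ supp n i}

theorem Metr_S_closed (n : ℕ) : IsClosed (Metr_S n) := by
  have h : Metr_S n = ⋂ i : ℤ, (supp n i)ᶜ := by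
    ext t
    simp [Metr_S]
  rw [h]
  exact isClosed_iInter fun i => (isOpen_supp n i).isClosed_compl

theorem Metr_S_ne (n : ℕ) : (Metr_S n).Nonempty := by
  refine ⟨(1 / 2) / 2 ^ n, fun i hi => ?_⟩
  have h0 : (2 : ℝ) ^ n * ((1 / 2) / 2 ^ n) = 1 / 2 := by
    field_simp
  unfold supp at hi
  rw [Set.mem_ofPred_eq, h0, abs_lt] at hi
  obtain ⟨h1, h2⟩ := hi
  have h3 : (i : ℝ) < 1 := by linarith
  have h4 : (0 : ℝ) < i := by linarith
  have h5 : i < 1 := by exact_mod_cast h3
  have h6 : 0 < i := by exact_mod_cast h4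
  omega

/-- the weight of the scale `n` -/
def Metr_h (n : ℕ) (t : ℝ) : ℝ := Metric.infDist t (Metr_S n)

theorem Metr_h_cont (n : ℕ) : Continuous (Metr_h n) := Metric.continuous_infDist_pt _

theorem Metr_h_nonneg (n : ℕ) (t : ℝ) : 0 ≤ Metr_h n t := Metric.infDist_nonneg

theorem Metr_h_pos {n : ℕ} {t : ℝ} : 0 < Metr_h n t ↔ ∃ i : ℤ, t ∈ supp n i := by
  unfold Metr_h
  rw [← (Metr_S_closed n).notMem_iff_infDist_pos (Metr_S_ne n)]
  simp [Metr_S]

/-- the embedding -/
def Metr_phi (z : Z D) : ℝ × (ℕ → Metr_Hed (ℤ × Idx D)) :=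
  (z.1, fun n => ⟨(round (2 ^ n * z.1), z.2 n), Metr_h n z.1, Metr_h_nonneg n z.1⟩)

theorem Metr_phi_cont : Continuous (Metr_phi : Z D → _) := by
  refine Continuous.prodMk continuous_fstZ (continuous_pi fun n => ?_)
  rw [continuous_iff_continuousAt]
  intro z
  rw [ContinuousAt, Metric.tendsto_nhds]
  intro ε hε
  have hc : ∀ᶠ z' : Z D in 𝓝 z, |Metr_h n z'.1 - Metr_h n z.1| < ε := by
    have h1 : Continuous (fun z' : Z D => Metr_h n z'.1) := (Metr_h_cont n).comp continuous_fstZ
    have h2 := (Metric.tendsto_nhds.1 (h1.tendsto z)) ε hε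
    exact h2
  rcases (Metr_h_nonneg n z.1).eq_or_lt with h0 | h0
  · filter_upwards [hc] with z' hz'
    refine lt_of_le_of_lt (Metr_dist_le _ _) ?_
    show Metr_h n z'.1 + Metr_h n z.1 < ε
    rw [← h0, add_zero]
    rw [← h0, sub_zero, abs_of_nonneg (Metr_h_nonneg n z'.1)] at hz'
    exact hz'
  · obtain ⟨i, hi⟩ := Metr_h_pos.1 h0
    have hcyl : cyl n i (z.2 n) ∈ 𝓝 z := (isOpen_cyl n i (z.2 n)).mem_nhds ⟨hi, rfl⟩
    filter_upwards [hc, hcyl] with z' hz' hz2
    have hk : (round (2 ^ n * z'.1), z'.2 n) = (round (2 ^ n * z.1), z.2 n) := by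
      rw [round_of_supp hi, round_of_supp hz2.1, hz2.2]
    refine lt_of_le_of_lt (le_of_eq (Metr_dist_eq hk)) ?_
    exact hz'

theorem Metr_phi_ind : IsInducing (Metr_phi : Z D → _) := by
  rw [isInducing_iff_nhds]
  intro z
  refine le_antisymm (Filter.map_le_iff_le_comap.1 (Metr_phi_cont.tendsto z)) ?_
  intro G' hG'
  obtain ⟨G, hGG, hG, hz⟩ := mem_nhds_iff.1 hG'
  obtain ⟨ε, hε, N, hN⟩ := exists_basic hG hz
  rw [Filter.mem_comap]
  refine ⟨{w | |w.1 - z.1| < ε} ∩ ⋂ n ∈ {n : ℕ | n < N}, {w | 0 < Metr_h n z.1 →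
    dist (w.2 n) ((Metr_phi z).2 n) < Metr_h n z.1}, ?_, ?_⟩
  · refine Filter.inter_mem ?_ ((Filter.biInter_mem (Set.finite_lt_nat N)).2 fun n _ => ?_)
    · have h1 : Filter.Tendsto (fun w : ℝ × (ℕ → Metr_Hed (ℤ × Idx D)) => w.1) (𝓝 (Metr_phi z))
          (𝓝 z.1) := continuous_fst.tendsto _
      exact (Metric.tendsto_nhds.1 h1) ε hε
    · by_cases h0 : 0 < Metr_h n z.1
      · have h1 : Filter.Tendsto (fun w : ℝ × (ℕ → Metr_Hed (ℤ × Idx D)) => w.2 n)
            (𝓝 (Metr_phi z)) (𝓝 ((Metr_phi z).2 n)) :=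
          ((continuous_apply n).comp continuous_snd).tendsto _
        filter_upwards [(Metric.tendsto_nhds.1 h1) _ h0] with w hw _
        exact hw
      · exact Filter.mem_of_superset Filter.univ_mem fun w _ h => absurd h h0
  · rintro z' ⟨h1, h2⟩
    apply hGG
    refine hN z' h1 fun n hn i hi => ?_
    have hpos : 0 < Metr_h n z.1 := Metr_h_pos.2 ⟨i, hi⟩
    have h3 := (Set.mem_iInter₂.1 h2) n hn hpos
    by_contra hne
    have hk : ((Metr_phi z').2 n).k ≠ ((Metr_phi z).2 n).k := by
      intro hk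
      exact hne (congrArg Prod.snd hk)
    have h4 : dist ((Metr_phi z').2 n) ((Metr_phi z).2 n) = Metr_h n z'.1 + Metr_h n z.1 :=
      Metr_dist_ne hk
    rw [h4] at h3
    have h5 := Metr_h_nonneg n z'.1
    linarith

theorem pseudoMetrizable_Z (D : Type) : TopologicalSpace.PseudoMetrizableSpace (Z D) :=
  Metr_phi_ind.pseudoMetrizableSpace

end

end Pool.Agent.H6.Gap
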