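import Pool.Agent.H6.Gap.YClopen
import Pool.Agent.H6.Gap.Metr

/-!
# The subspace `Y` has a base of clopen sets, part B

`Y_zeroDim`: let `z ∈ Y` and let `G` be an open set of `Z D` containing `z`; take `ε`, `N` from
`exists_basic` and `n ≥ N`, `i` from `small_supp`.  The trace on `Y` of the intersection of
`cyl n i (z.2 n)` and of the sets `cyl m (round (2 ^ m * z.1)) (z.2 m)`, for the `m < N` with
`z.1 ∈ supp m (round (2 ^ m * z.1))`, is clopen, contains `z` and is contained in `G`.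

`Y_t0`: if `z`, `z'` are inseparable points of `Y`, then `z.1 = z'.1` (`continuous_fstZ`), and
`z.2 n = z'.2 n` for all `n`: if `z.1 ∈ supp n i` then by the open set `cyl n i (z.2 n)`, and if
`z.1 = hub n c` then both are `dft d0` by `IsY.dflt`.
-/

open Set Topology

namespace Pool.Agent.H6.Gap

variable {D : Type}

theorem Y_zeroDim (R : ℕ → Set (ℕ → D)) (d0 : D) : ZeroDim (Y R d0) := by
  classical
  intro z U hU hzU
  obtain ⟨G, hG, rfl⟩ := isOpen_induced_iff.mp hU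
  obtain ⟨ε, hε, N, hN⟩ := exists_basic hG (z := z.1) hzU
  obtain ⟨n, _, i, hi, hs⟩ := small_supp z.1.1 hε N
  refine ⟨{y : Y R d0 | (y : Z D) ∈ cyl n i (z.1.2 n)} ∩ ⋂ m ∈ Finset.range N,
    {y : Y R d0 | z.1.1 ∈ supp m (round (2 ^ m * z.1.1)) →
      (y : Z D) ∈ cyl m (round (2 ^ m * z.1.1)) (z.1.2 m)}, ?_, ?_, ?_⟩
  · refine (clopen_cyl R d0 n i (z.1.2 n)).inter (isClopen_biInter_finset fun m _ => ?_)
    by_cases h : z.1.1 ∈ supp m (round (2 ^ m * z.1.1))
    · have h2 : {y : Y R d0 | z.1.1 ∈ supp m (round (2 ^ m * z.1.1)) →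
          (y : Z D) ∈ cyl m (round (2 ^ m * z.1.1)) (z.1.2 m)} =
          {y : Y R d0 | (y : Z D) ∈ cyl m (round (2 ^ m * z.1.1)) (z.1.2 m)} := by
        ext y
        exact ⟨fun hy => hy h, fun hy _ => hy⟩
      rw [h2]
      exact clopen_cyl R d0 m _ _
    · have h2 : {y : Y R d0 | z.1.1 ∈ supp m (round (2 ^ m * z.1.1)) →
          (y : Z D) ∈ cyl m (round (2 ^ m * z.1.1)) (z.1.2 m)} = Set.univ := by
        ext y
        exact ⟨fun _ => trivial, fun _ hy => absurd hy h⟩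
      rw [h2]
      exact isClopen_univ
  · refine ⟨⟨hi, rfl⟩, ?_⟩
    simp only [Set.mem_iInter, Finset.mem_range, Set.mem_ofPred_eq]
    intro m _ h
    exact ⟨h, rfl⟩
  · rintro y ⟨hy1, hy2⟩
    refine hN y.1 (hs _ hy1.1) ?_
    intro m hm j hj
    simp only [Set.mem_iInter, Finset.mem_range, Set.mem_ofPred_eq] at hy2
    have hj2 : z.1.1 ∈ supp m (round (2 ^ m * z.1.1)) := by
      rw [round_of_supp hj]
      exact hj
    exact (hy2 m hm hj2).2

theorem Y_t0 (R : ℕ → Set (ℕ → D)) (d0 : D) : T0Space (Y R d0) := by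
  refine ⟨fun z z' h => ?_⟩
  have hi : Inseparable (z : Z D) (z' : Z D) := h.map continuous_subtype_val
  have h1 : z.1.1 = z'.1.1 := (hi.map continuous_fstZ).eq
  have h2 : z.1.2 = z'.1.2 := by
    funext n
    rcases supp_or_hub n z.1.1 with hs | ⟨c, hc⟩
    · have hz : z.1 ∈ cyl n (round (2 ^ n * z.1.1)) (z.1.2 n) := ⟨hs, rfl⟩
      have hz' := (hi.mem_open_iff (isOpen_cyl n (round (2 ^ n * z.1.1)) (z.1.2 n))).mp hz
      exact hz'.2.symm
    · rw [z.2.dflt n c hc, z'.2.dflt n c (h1 ▸ hc)]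
  exact Subtype.ext (Prod.ext h1 h2)

end Pool.Agent.H6.Gap
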