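import Pool.Agent.H6.Gap.HubY
import Pool.Agent.H6.Gap.HubDep
import Pool.Agent.H6.Gap.Assign
import Pool.Agent.H6.Gap.YBase
import Pool.Agent.H6.Gap.Pack

/-!
# Common sections

`exists_sec`: apply `exists_assign` to the `Sel` with `V = ℕ × ℤ`, `Q = ℕ × ℤ`, `τ v = typ v.1 v.2`,
`sc v = v.1`, `w (l, c) = (l, c)`, `w' (l, c) = (l, c + 1)` and
`Bad ξ (l, c) = {ρ | sec d0 ρ (hub l c) ∉ G ξ}`.
`dep` by `hub_dep` and `typ_own_ne_left`, `typ_own_ne_right`; `closed` by `hub_open`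
(by contradiction, for the assignment `update (update ρ (w q) a) (w' q) a'`);
`miss` by `hub_mem_Y`.  We get `ρ` and take `s = sec d0 ρ`: it is continuous
(`sec_continuous`), `(s t).1 = t` by definition, and `s t ∈ G ξ`: if `t` is a hub, because
`ρ ∉ Bad`, otherwise by `sec_mem_Y`.

`exists_factor` combines this with `exists_pack`, `pseudoMetrizable_Z`, `Y_t0`, `Y_zeroDim`,
`continuous_fstZ`.
-/

open Set Topology

namespace Pool.Agent.H6.Gap

variable {D : Type}

/-- The selection problem of the telescope. -/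
noncomputable def selZ {Ξ : Type} (R : ℕ → Set (ℕ → D)) (d0 : D) (G : Ξ → Set (Z D))
    (hG : ∀ ξ, IsOpen (G ξ)) (hY : ∀ ξ, Y R d0 ⊆ G ξ) : Sel Ξ D (ℕ × ℤ) (ℕ × ℤ) R where
  τ v := typ v.1 v.2
  sc v := v.1
  hτ3 v := typ_lt_three v.1 v.2
  w q := q
  w' q := (q.1, q.2 + 1)
  hτ q := typ_ne q.1 q.2
  hsc _ := rfl
  Bad ξ q := {ρ | sec d0 ρ (hub q.1 q.2) ∉ G ξ}
  dep := by
    intro ξ q ρ ρ' h hb
    have e : sec d0 ρ (hub q.1 q.2) = sec d0 ρ' (hub q.1 q.2) := by
      apply hub_dep d0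
      intro v hv
      apply h
      rcases hv with hv | hv | hv | ⟨k, hv⟩
      · exact Or.inl hv
      · exact Or.inr (Or.inl hv)
      · exact Or.inr (Or.inr (Or.inl hv))
      · refine Or.inr (Or.inr (Or.inr ⟨?_, ?_⟩))
        · rw [hv]
          exact typ_own_ne_left q.1 k q.2
        · rw [hv]
          exact typ_own_ne_right q.1 k q.2
    show sec d0 ρ' (hub q.1 q.2) ∉ G ξ
    rw [← e]
    exact hb
  closed := by
    intro ξ q ρ a a' h hcon
    obtain ⟨N, hN⟩ := hub_open d0 (hG ξ) hcon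
    obtain ⟨b, b', hbb, hbad⟩ := h N
    have hne : (q : ℕ × ℤ) ≠ (q.1, q.2 + 1) := by
      intro hq
      have h2 := congrArg Prod.snd hq
      simp at h2
    apply hbad
    apply hN
    · intro v h1 h2
      have h1' : v ≠ q := h1
      simp only [Function.update_of_ne h2, Function.update_of_ne h1']
    · intro k hk
      have h3 := hbb k hk
      constructor
      · show Function.update (Function.update ρ q b) (q.1, q.2 + 1) b' q k =
          Function.update (Function.update ρ q a) (q.1, q.2 + 1) a' q k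
        rw [Function.update_of_ne hne, Function.update_of_ne hne, Function.update_self,
          Function.update_self]
        exact h3.1
      · show Function.update (Function.update ρ q b) (q.1, q.2 + 1) b' (q.1, q.2 + 1) k =
          Function.update (Function.update ρ q a) (q.1, q.2 + 1) a' (q.1, q.2 + 1) k
        rw [Function.update_self, Function.update_self]
        exact h3.2
  miss := by
    intro ξ q ρ h h1 h2 hcon
    exact hcon (hY ξ (hub_mem_Y d0 h h1 h2))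

theorem exists_sec {Ξ : Type} {R : ℕ → Set (ℕ → D)} {lam : ℕ → Cardinal.{0}}
    (hP : IsPack Ξ R lam) (d0 : D) (G : Ξ → Set (Z D)) (hG : ∀ ξ, IsOpen (G ξ))
    (hY : ∀ ξ, Y R d0 ⊆ G ξ) :
    ∃ s : ℝ → Z D, Continuous s ∧ (∀ t, (s t).1 = t) ∧ ∀ ξ t, s t ∈ G ξ := by
  obtain ⟨ρ, hρ, hbad⟩ := exists_assign (selZ R d0 G hG hY) hP
  refine ⟨sec d0 ρ, sec_continuous d0 ρ, fun _ => rfl, fun ξ t => ?_⟩
  by_cases ht : ∃ l c, t = hub l c
  · obtain ⟨l, c, rfl⟩ := ht
    by_contra hcon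
    exact hbad ξ (l, c) hcon
  · push Not at ht
    exact hY ξ (sec_mem_Y d0 hρ ht)

theorem exists_factor (Ξ : Type) : ∃ (W : Type) (_ : TopologicalSpace W) (B : Set W) (p : W → ℝ),
    TopologicalSpace.PseudoMetrizableSpace W ∧ T0Space B ∧ ZeroDim B ∧ Continuous p ∧
    ∀ G : Ξ → Set W, (∀ ξ, IsOpen (G ξ)) → (∀ ξ, B ⊆ G ξ) →
      ∃ s : ℝ → W, Continuous s ∧ (∀ t, p (s t) = t) ∧ ∀ ξ t, s t ∈ G ξ := by
  obtain ⟨D, d0, R, lam, hP⟩ := exists_pack Ξ
  exact ⟨Z D, inferInstance, Y R d0, fun z => z.1, pseudoMetrizable_Z D, Y_t0 R d0,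
    Y_zeroDim R d0, continuous_fstZ, fun G hG hY => exists_sec hP d0 G hG hY⟩

end Pool.Agent.H6.Gap
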