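import Pool.Agent.H6.Gap.Sum
import Pool.Agent.H6.Gap.Descent
import Pool.Agent.H6.Gap.Comp
import Pool.Agent.H6.Gap.Cube

/-!
# Assembly
-/

open Set Topology

namespace Pool.Agent.H6.Gap

theorem main_gap (n : ℕ) : ∃ (X : Type) (_ : MetricSpace X),
    ZeroDim X ∧ ¬ TrIndLE (n : Ordinal.{0}) X := by
  obtain ⟨S⟩ := cube_all (n + 1)
  have := metrizable_X S
  refine ⟨S.X, TopologicalSpace.metrizableSpaceMetric S.X, ?_, ?_⟩
  · exact S.zd
  · exact not_indLE (continuous_fn S) (fun k hk => ess_mono hk (ess_cube S))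

theorem main : ∃ (X : Type) (_ : MetricSpace X),
    (∃ (K : Type) (_ : TopologicalSpace K) (e : X → K), CompactSpace K ∧ T2Space K ∧
      IsDenseEmbedding e ∧ CountDim K ∧ ∀ y, y ∉ range e → ∃ O ∈ 𝓝 y, FinInd O) ∧
    ¬ ∃ α : Ordinal.{0}, TrIndLE α X := by
  have S : ∀ n, CubeSpace n := fun n => (cube_all n).some
  have := metrizable_sumT S
  refine ⟨SumT S, TopologicalSpace.metrizableSpaceMetric (SumT S), ?_, ?_⟩
  · exact exists_compactification (SumT S) (zeroDim_sumT S)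
  · rintro ⟨α, hα⟩
    exact not_trIndLE (continuous_sumFn S) (ess_sumT S) α hα

end Pool.Agent.H6.Gap
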