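import Pool.Agent.H6.Gap.Defs

/-!
# The topology of the telescope space

`exists_basic` by induction on `TopologicalSpace.GenerateOpen`: for `fst ⁻¹' U` use openness of `U`
in `ℝ`; for `cyl n i x ∋ z` take `N = n + 1` and `ε` such that the `ε`-neighbourhood of `z.1` is
contained in `supp n i`; intersections: minimum and maximum; unions: trivial.
`isOpen_of_basic`: `G` is the union of the open sets
`{z' | |z'.1 - z.1| < ε} ∩ ⋂ n < N with z.1 ∈ supp n i, cyl n i (z.2 n)` (for a given `n` there is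
at most one `i` with `z.1 ∈ supp n i`, but the intersection over all `i` is awkward; take the
finite intersection over `n < N` of `cyl n (round (2 ^ n * z.1)) (z.2 n)` if
`z.1 ∈ supp n (round (2 ^ n * z.1))`, and of the whole space otherwise).
`continuous_of_basic` from `exists_basic`.
-/

open Set Topology

namespace Pool.Agent.H6.Gap

variable {D : Type}

theorem isOpen_supp (n : ℕ) (i : ℤ) : IsOpen (supp n i) := by
  have h : Continuous (fun t : ℝ => |2 ^ n * t - (i : ℝ)|) := by fun_prop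
  exact isOpen_lt h continuous_const

theorem round_of_supp {n : ℕ} {i : ℤ} {t : ℝ} (h : t ∈ supp n i) : round (2 ^ n * t) = i := by
  have h1 : |2 ^ n * t - (i : ℝ)| < 1 / 2 := h
  rw [abs_lt] at h1
  rw [round_eq, Int.floor_eq_iff]
  constructor <;> linarith [h1.1, h1.2]

theorem supp_unique {n : ℕ} {i j : ℤ} {t : ℝ} (hi : t ∈ supp n i) (hj : t ∈ supp n j) :
    i = j := by
  rw [← round_of_supp hi, ← round_of_supp hj]

theorem isOpen_fst_preimage {U : Set ℝ} (hU : IsOpen U) :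
    IsOpen ((fun z : Z D => z.1) ⁻¹' U) :=
  TopologicalSpace.isOpen_generateFrom_of_mem (Or.inl ⟨U, hU, rfl⟩)

theorem continuous_fstZ : Continuous (fun z : Z D => z.1) :=
  continuous_def.2 fun _ hU => isOpen_fst_preimage hU

theorem isOpen_cyl (n : ℕ) (i : ℤ) (x : Idx D) : IsOpen (cyl n i x) :=
  TopologicalSpace.isOpen_generateFrom_of_mem (Or.inr ⟨n, i, x, rfl⟩)

theorem exists_basic {G : Set (Z D)} (hG : IsOpen G) {z : Z D} (hz : z ∈ G) :
    ∃ ε > 0, ∃ N : ℕ, ∀ z' : Z D, |z'.1 - z.1| < ε →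
      (∀ n < N, ∀ i, z.1 ∈ supp n i → z'.2 n = z.2 n) → z' ∈ G := by
  induction hG with
  | basic s hs =>
    rcases hs with ⟨U, hU, rfl⟩ | ⟨n, i, x, rfl⟩
    · obtain ⟨ε, hε, h⟩ := Metric.isOpen_iff.1 hU z.1 hz
      exact ⟨ε, hε, 0, fun z' h1 _ => h (by rwa [Metric.mem_ball, Real.dist_eq])⟩
    · obtain ⟨ε, hε, h⟩ := Metric.isOpen_iff.1 (isOpen_supp n i) z.1 hz.1
      refine ⟨ε, hε, n + 1, fun z' h1 h2 => ⟨h (by rwa [Metric.mem_ball, Real.dist_eq]), ?_⟩⟩
      rw [h2 n (Nat.lt_succ_self n) i hz.1]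
      exact hz.2
  | univ => exact ⟨1, one_pos, 0, fun _ _ _ => mem_univ _⟩
  | inter s t _ _ hs ht =>
    obtain ⟨ε1, hε1, N1, h1⟩ := hs hz.1
    obtain ⟨ε2, hε2, N2, h2⟩ := ht hz.2
    refine ⟨min ε1 ε2, lt_min hε1 hε2, max N1 N2, fun z' h3 h4 => ⟨?_, ?_⟩⟩
    · exact h1 z' (h3.trans_le (min_le_left _ _)) fun n hn => h4 n (hn.trans_le (le_max_left _ _))
    · exact h2 z' (h3.trans_le (min_le_right _ _)) fun n hn => h4 n (hn.trans_le (le_max_right _ _))
  | sUnion S _ ih =>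
    obtain ⟨s, hs, hzs⟩ := hz
    obtain ⟨ε, hε, N, h⟩ := ih s hs hzs
    exact ⟨ε, hε, N, fun z' h1 h2 => ⟨s, hs, h z' h1 h2⟩⟩

theorem isOpen_of_basic {G : Set (Z D)} (h : ∀ z ∈ G, ∃ ε > 0, ∃ N : ℕ, ∀ z' : Z D,
    |z'.1 - z.1| < ε → (∀ n < N, ∀ i, z.1 ∈ supp n i → z'.2 n = z.2 n) → z' ∈ G) :
    IsOpen G := by
  classical
  rw [isOpen_iff_mem_nhds]
  intro z hz
  obtain ⟨ε, hε, N, hN⟩ := h z hz
  let W : ℕ → Set (Z D) := fun n =>
    if z.1 ∈ supp n (round (2 ^ n * z.1)) then cyl n (round (2 ^ n * z.1)) (z.2 n) else univ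
  have hW : ∀ n, IsOpen (W n) ∧ z ∈ W n := by
    intro n
    by_cases hn : z.1 ∈ supp n (round (2 ^ n * z.1))
    · simp only [W, if_pos hn]
      exact ⟨isOpen_cyl _ _ _, hn, rfl⟩
    · simp only [W, if_neg hn]
      exact ⟨isOpen_univ, mem_univ _⟩
  have hO : IsOpen ((fun z : Z D => z.1) ⁻¹' (Metric.ball z.1 ε) ∩ ⋂ n ∈ Finset.range N, W n) := by
    refine (isOpen_fst_preimage Metric.isOpen_ball).inter ?_
    exact isOpen_biInter_finset fun n _ => (hW n).1
  refine Filter.mem_of_superset (hO.mem_nhds ⟨Metric.mem_ball_self hε, ?_⟩) ?_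
  · simp only [mem_iInter]
    exact fun n _ => (hW n).2
  · rintro z' ⟨h1, h2⟩
    refine hN z' (by simpa [Real.dist_eq] using h1) fun n hn i hi => ?_
    have h3 : z' ∈ W n := by
      simp only [mem_iInter] at h2
      exact h2 n (Finset.mem_range.2 hn)
    have h4 := round_of_supp hi
    have h5 : z.1 ∈ supp n (round (2 ^ n * z.1)) := by rw [h4]; exact hi
    simp only [W, if_pos h5] at h3
    exact h3.2

theorem continuous_of_basic {A : Type} [TopologicalSpace A] (f : A → Z D)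
    (h1 : Continuous (fun a => (f a).1))
    (h2 : ∀ a n i, (f a).1 ∈ supp n i → ∀ᶠ b in 𝓝 a, (f b).2 n = (f a).2 n) :
    Continuous f := by
  rw [continuous_def]
  intro G hG
  rw [isOpen_iff_mem_nhds]
  intro a ha
  obtain ⟨ε, hε, N, hN⟩ := exists_basic hG ha
  have h3 : ∀ᶠ b in 𝓝 a, |(f b).1 - (f a).1| < ε := by
    have := (h1.tendsto a).eventually (Metric.ball_mem_nhds _ hε)
    filter_upwards [this] with b hb
    simpa [Real.dist_eq] using hb
  have h4 : ∀ᶠ b in 𝓝 a, ∀ n ∈ Finset.range N, ∀ i, (f a).1 ∈ supp n i → (f b).2 n = (f a).2 n := by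
    rw [Filter.eventually_all_finset]
    intro n _
    by_cases hn : (f a).1 ∈ supp n (round (2 ^ n * (f a).1))
    · filter_upwards [h2 a n _ hn] with b hb i _
      exact hb
    · refine Filter.Eventually.of_forall fun b i hi => ?_
      exact absurd (by rw [round_of_supp hi]; exact hi) hn
  filter_upwards [h3, h4] with b hb1 hb2
  exact hN (f b) hb1 fun n hn i hi => hb2 n (Finset.mem_range.2 hn) i hi

end Pool.Agent.H6.Gap
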