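import Pool.Agent.H6.Gap.Defs
import Pool.Agent.H75.Brouwer.Brouwer

/-!
# A covering form of the Poincaré-Miranda theorem

Proof.  Let `C = Icc 0 1` in `Fin n → ℝ`, and let `q : (Fin n → ℝ) → (Fin n → unitInterval)` be the
coordinatewise projection (`Set.projIcc 0 1`), a continuous map.  Let
`f x i = infDist (q x) (N i)ᶜ - infDist (q x) (P i)ᶜ`.  At `x i = 0` we have `q x ∉ N i`, so
`f x i ≤ 0`, at `x i = 1` we have `q x ∉ P i`, so `f x i ≥ 0`.  By
`Pool.Agent.H75.Brouwer.poincare_miranda` there is `x ∈ C` with `f x = 0`.  Let `s = q x`.  If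
`s ∈ P i` then `s ∉ N i`, so `infDist s (N i)ᶜ = 0`, hence `infDist s (P i)ᶜ = 0`, hence
`s ∈ closure (P i)ᶜ = (P i)ᶜ` (`(P i)ᶜ` is closed and nonempty, because it contains the points with
`s i = 1`); contradiction.  If `s ∈ N i`, similarly (`(N i)ᶜ` contains the points with `s i = 0`).
-/

open Set Topology

namespace Pool.Agent.H6.Gap

theorem cube_cover {n : ℕ} (P N : Fin n → Set (Fin n → unitInterval))
    (hP : ∀ i, IsOpen (P i)) (hN : ∀ i, IsOpen (N i)) (hd : ∀ i, Disjoint (P i) (N i))
    (h1 : ∀ i s, s i = 1 → s ∉ P i) (h0 : ∀ i s, s i = 0 → s ∉ N i) :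
    ∃ s, ∀ i, s ∉ P i ∧ s ∉ N i := by
  classical
  let q : (Fin n → ℝ) → (Fin n → unitInterval) := fun x i => Set.projIcc 0 1 zero_le_one (x i)
  have hq : Continuous q := by
    refine continuous_pi fun i => ?_
    exact continuous_projIcc.comp (continuous_apply i)
  let f : (Fin n → ℝ) → (Fin n → ℝ) := fun x i =>
    Metric.infDist (q x) (N i)ᶜ - Metric.infDist (q x) (P i)ᶜ
  have hf : Continuous f := by
    refine continuous_pi fun i => ?_
    exact ((Metric.continuous_infDist_pt _).comp hq).sub ((Metric.continuous_infDist_pt _).comp hq)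
  obtain ⟨x, -, hx⟩ := Pool.Agent.H75.Brouwer.poincare_miranda (0 : Fin n → ℝ) 1
    (fun i => by simp) f hf.continuousOn
    (by
      intro x _ i hxi
      have hs : q x ∉ N i := by
        apply h0
        change Set.projIcc 0 1 zero_le_one (x i) = 0
        rw [hxi]
        exact Set.projIcc_left _
      have h2 : Metric.infDist (q x) (N i)ᶜ = 0 := Metric.infDist_zero_of_mem hs
      change Metric.infDist (q x) (N i)ᶜ - Metric.infDist (q x) (P i)ᶜ ≤ 0
      rw [h2]
      have := Metric.infDist_nonneg (x := q x) (s := (P i)ᶜ)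
      linarith)
    (by
      intro x _ i hxi
      have hs : q x ∉ P i := by
        apply h1
        change Set.projIcc 0 1 zero_le_one (x i) = 1
        rw [hxi]
        exact Set.projIcc_right _
      have h2 : Metric.infDist (q x) (P i)ᶜ = 0 := Metric.infDist_zero_of_mem hs
      change 0 ≤ Metric.infDist (q x) (N i)ᶜ - Metric.infDist (q x) (P i)ᶜ
      rw [h2]
      have := Metric.infDist_nonneg (x := q x) (s := (N i)ᶜ)
      linarith)
  refine ⟨q x, fun i => ?_⟩
  have hxi : Metric.infDist (q x) (N i)ᶜ - Metric.infDist (q x) (P i)ᶜ = 0 := congrFun hx i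
  have hneP : ((P i)ᶜ : Set (Fin n → unitInterval)).Nonempty :=
    ⟨fun _ => 1, h1 i _ rfl⟩
  have hneN : ((N i)ᶜ : Set (Fin n → unitInterval)).Nonempty :=
    ⟨fun _ => 0, h0 i _ rfl⟩
  constructor
  · intro hs
    have hsN : q x ∉ N i := fun h => (Set.disjoint_left.1 (hd i)) hs h
    have h2 : Metric.infDist (q x) (N i)ᶜ = 0 := Metric.infDist_zero_of_mem hsN
    have h3 : Metric.infDist (q x) (P i)ᶜ = 0 := by linarith
    exact ((IsClosed.mem_iff_infDist_zero (hP i).isClosed_compl hneP).2 h3) hs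
  · intro hs
    have hsP : q x ∉ P i := fun h => (Set.disjoint_left.1 (hd i)) h hs
    have h2 : Metric.infDist (q x) (P i)ᶜ = 0 := Metric.infDist_zero_of_mem hsP
    have h3 : Metric.infDist (q x) (N i)ᶜ = 0 := by linarith
    exact ((IsClosed.mem_iff_infDist_zero (hN i).isClosed_compl hneN).2 h3) hs

end Pool.Agent.H6.Gap
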