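import Pool.Agent.H6.Gap.SmallLem

/-!
# Existence of packs

`exists_not_small` : for every cardinal `lam` there are a set `D` and a set `R` of sequences in
`D` which is not a union of `lam` closed sets (closed in `ℕ → D`, `D` discrete).

Proof.  Let `Λ` be an infinite type with `lam ≤ #Λ` (e.g. `Λ = ℕ ⊕ lam.out`).  Put `T 0 = Λ`,
`T (n + 1) = Set (T n)` (a function `ℕ → Type` by recursion) and `D = Σ n, T n`.  Then

* `Set D` injects into `ℕ → D`: send `A` to `n ↦ ⟨n + 1, {x : T n | ⟨n, x⟩ ∈ A}⟩`.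
* A closed set `C ⊆ (ℕ → D)` is determined by its tree
  `{s : List D | ∃ g ∈ C, s = (List.range s.length).map g}` (or `List.ofFn`): `f ∈ C` iff all
  the initial segments of `f` are in the tree.
* If `R` is covered by a family `C : ι → Set (ℕ → D)` of closed subsets of `R`, `#ι ≤ lam`,
  then (`ι` embeds in `Λ`) `R` is determined by a subset of `Λ × List D`.  [If `ι` is empty,
  or to extend the family to all of `Λ`, take empty trees for the missing indices.]  So if all
  `R` were small in themselves then there would be a surjection of `Set (Λ × List D)` onto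
  `Set (ℕ → D)`.  But `#(Λ × List D) ≤ #D` (`D` is infinite, `#Λ ≤ #D`), so
  `#(Set (Λ × List D)) ≤ #(Set D) ≤ #(ℕ → D) < #(Set (ℕ → D))` by Cantor; contradiction.
-/

open Set Topology Cardinal

namespace Pool.Agent.H6.Gap

/-- iterated power sets -/
def PackA_T (Λ : Type) : ℕ → Type
  | 0 => Λ
  | n + 1 => Set (PackA_T Λ n)

theorem PackA_inj (Λ : Type) : Function.Injective
    (fun (A : Set (Σ n, PackA_T Λ n)) (n : ℕ) =>
      (⟨n + 1, {x : PackA_T Λ n | (⟨n, x⟩ : Σ n, PackA_T Λ n) ∈ A}⟩ : Σ n, PackA_T Λ n)) := by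
  intro A B hAB
  ext ⟨n, x⟩
  have h := congrFun hAB n
  have h2 := eq_of_heq (Sigma.mk.inj h).2
  exact Set.ext_iff.1 h2 x

theorem PackA_code {Λ D : Type} {lam : Cardinal.{0}} (hlam : lam ≤ #Λ)
    (h : ∀ R : Set (ℕ → D), Small lam R R) :
    ∃ code : Set (ℕ → D) → Set (Λ × List D), Function.Injective code := by
  choose ι C hι hC hR using h
  have he : ∀ R : Set (ℕ → D), Nonempty (ι R ↪ Λ) := fun R => Cardinal.le_def _ _ |>.1
    ((hι R).trans hlam)
  obtain ⟨e⟩ : Nonempty (∀ R : Set (ℕ → D), ι R ↪ Λ) := ⟨fun R => (he R).some⟩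
  obtain ⟨code, hcode⟩ : ∃ code : Set (ℕ → D) → Set (Λ × List D), ∀ R p, p ∈ code R ↔
      ∃ i : ι R, e R i = p.1 ∧ ∃ g ∈ C R i, p.2 = (List.range p.2.length).map g :=
    ⟨fun R => {p | ∃ i : ι R, e R i = p.1 ∧ ∃ g ∈ C R i, p.2 = (List.range p.2.length).map g},
      fun R p => Iff.rfl⟩
  have key : ∀ (R : Set (ℕ → D)) (f : ℕ → D), f ∈ R ↔
      ∃ a : Λ, ∀ n, (a, (List.range n).map f) ∈ code R := by
    intro R f
    constructor
    · intro hf
      obtain ⟨i, hi⟩ := Set.mem_iUnion.1 (hR R hf)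
      refine ⟨e R i, fun n => (hcode R _).2 ⟨i, rfl, f, hi, ?_⟩⟩
      show (List.range n).map f = (List.range ((List.range n).map f).length).map f
      rw [List.length_map, List.length_range]
    · rintro ⟨a, ha⟩
      obtain ⟨i, hi, -⟩ := (hcode R _).1 (ha 0)
      apply (hC R i).2
      apply (hC R i).1
      intro n
      obtain ⟨i', hi', g, hg, hgn⟩ := (hcode R _).1 (ha n)
      have hii : i' = i := (e R).injective (hi'.trans hi.symm)
      subst hii
      refine ⟨g, hg, fun k hk => ?_⟩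
      have h1 : (List.range n).map f = (List.range n).map g := by
        have h2 : (List.range n).map f = (List.range ((List.range n).map f).length).map g := hgn
        rw [List.length_map, List.length_range] at h2
        exact h2
      exact ((List.map_inj_left.1 h1) k (List.mem_range.2 hk)).symm
  refine ⟨code, fun R R' hRR => ?_⟩
  ext f
  rw [key R f, key R' f, hRR]

theorem exists_not_small (lam : Cardinal.{0}) :
    ∃ (D : Type) (R : Set (ℕ → D)), ¬ Small lam R R := by
  obtain ⟨Λ, hΛ, hinf⟩ : ∃ Λ : Type, lam ≤ #Λ ∧ Infinite Λ := by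
    refine ⟨ℕ ⊕ lam.out, ?_, inferInstance⟩
    calc lam = Cardinal.mk lam.out := (Cardinal.mk_out lam).symm
      _ ≤ #(ℕ ⊕ lam.out) := Cardinal.mk_le_of_injective Sum.inr_injective
  refine ⟨Σ n, PackA_T Λ n, ?_⟩
  by_contra hcon
  push Not at hcon
  obtain ⟨code, hcode⟩ := PackA_code hΛ hcon
  have hj0 : Function.Injective (fun a : Λ => (⟨0, a⟩ : Σ n, PackA_T Λ n)) := by
    intro a b hab
    exact eq_of_heq (Sigma.mk.inj hab).2
  have hDinf : Infinite (Σ n, PackA_T Λ n) := Infinite.of_injective _ hj0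
  have hj : Nonempty (Λ × List (Σ n, PackA_T Λ n) ↪ Σ n, PackA_T Λ n) := by
    rw [← Cardinal.le_def, Cardinal.mk_prod, Cardinal.lift_id, Cardinal.lift_id,
      Cardinal.mk_list_eq_mk]
    calc #Λ * #(Σ n, PackA_T Λ n) ≤ #(Σ n, PackA_T Λ n) * #(Σ n, PackA_T Λ n) :=
          mul_le_mul_left (Cardinal.mk_le_of_injective hj0) _
      _ = #(Σ n, PackA_T Λ n) := Cardinal.mul_eq_self (Cardinal.aleph0_le_mk _)
  obtain ⟨j⟩ := hj
  exact Function.cantor_injective _
    ((PackA_inj Λ).comp ((Set.image_injective.2 j.injective).comp hcode))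

end Pool.Agent.H6.Gap
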