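import Pool.Agent.H6.Gap.SmallLem

/-!
# The rectangle lemma

`C` is a closed set of pairs of sequences containing no pair `(a, b)` with `a ∉ R i`, `b ∉ R j`.
Then for all `b ∈ R j` outside of a small set the section `{a ∈ R i | (a, b) ∈ C}` is small.

Proof.  For `A ⊆ R i` (i.e. `A : Set (R i)`) put `P A = {b ∈ R j | {a ∈ R i | (a, b) ∈ C} = A}`.
The bad set is contained in the union of the `P A` over all `A ⊆ R i` which are not small.  There
are at most `2 ^ #(R i) ≤ lam j` sets `A`, so by `Small.iUnion` it is enough to show that `P A`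
is small if `A` is not small.  Suppose that neither is small.  By `exists_clo_not_mem` there are
`a ∈ clo A`, `a ∉ R i` and `b ∈ clo (P A)`, `b ∉ R j`.  As `A ×ˢ P A ⊆ C`, `hC` gives
`(a, b) ∈ C`, contradicting `hmiss`.
-/

open Set Topology Cardinal

namespace Pool.Agent.H6.Gap

variable {D : Type}

theorem rect {Ξ : Type} {R : ℕ → Set (ℕ → D)} {lam : ℕ → Cardinal.{0}} (hP : IsPack Ξ R lam)
    {i j : ℕ} (hij : i < j) (C : Set ((ℕ → D) × (ℕ → D)))
    (hC : ∀ a b, (∀ n : ℕ, ∃ a' b', (∀ k < n, a' k = a k ∧ b' k = b k) ∧ (a', b') ∈ C) →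
      (a, b) ∈ C)
    (hmiss : ∀ a b, a ∉ R i → b ∉ R j → (a, b) ∉ C) :
    Small (lam j) (R j) {b ∈ R j | ¬ Small (lam i) (R i) {a ∈ R i | (a, b) ∈ C}} := by
  have hcard : #{A : Set (R i) // ¬ Small (lam i) (R i) (Subtype.val '' A)} ≤ lam j := by
    refine (mk_subtype_le _).trans ?_
    rw [mk_set]
    exact hP.R_lt i j hij
  have hsmall : ∀ A : {A : Set (R i) // ¬ Small (lam i) (R i) (Subtype.val '' A)},
      Small (lam j) (R j) {b ∈ R j | {a ∈ R i | (a, b) ∈ C} = Subtype.val '' A.1} := by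
    rintro ⟨A, hA⟩
    by_contra hcon
    obtain ⟨a, ha, haR⟩ := exists_clo_not_mem (hP.aleph0_le i) hA
    obtain ⟨b, hb, hbR⟩ := exists_clo_not_mem (hP.aleph0_le j) hcon
    refine hmiss a b haR hbR (hC a b fun n => ?_)
    obtain ⟨a', ha', hna⟩ := ha n
    obtain ⟨b', hb', hnb⟩ := hb n
    refine ⟨a', b', fun k hk => ⟨hna k hk, hnb k hk⟩, ?_⟩
    have h1 : {a ∈ R i | (a, b') ∈ C} = Subtype.val '' A := hb'.2
    rw [← h1] at ha'
    exact ha'.2
  refine (Small.iUnion (hP.aleph0_le j) hcard hsmall).mono ?_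
  rintro b ⟨hb, hns⟩
  have h1 : {a ∈ R i | (a, b) ∈ C} = Subtype.val '' {a : R i | (a.1, b) ∈ C} := by
    ext a
    constructor
    · rintro ⟨h2, h3⟩
      exact ⟨⟨a, h2⟩, h3, rfl⟩
    · rintro ⟨⟨a', h2⟩, h3, rfl⟩
      exact ⟨h2, h3⟩
  refine mem_iUnion.2 ⟨⟨{a : R i | (a.1, b) ∈ C}, ?_⟩, hb, h1⟩
  rw [← h1]
  exact hns

end Pool.Agent.H6.Gap
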