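import Pool.Agent.H6.Gap.Dyad

/-!
# Sections

`lab_own` by induction on `k` (generalizing `F`): for `k = 0`: `(2 c + 1) % 2 = 1` and
`(2 c + 1 - 1) / 2 = c`; for `k + 1`: `2 ^ (k+1) * (2 c + 1)` is even, and half of it is
`2 ^ k * (2 c + 1)`.  (Recall `l + 1 + (k + 1) = (l + 1 + k) + 1`.)

`sec_continuous` by `continuous_of_basic`: if `t ∈ supp n i` then all `t'` near `t` are in
`supp n i`, and `(sec d0 ρ t').2 n = asec d0 ρ n i` by `sec_snd`.

`sec_mem_Y`: `mem` by `sec_snd`; `dflt`, `hubL`, `hubR` are vacuous; `right`: by `sec_snd` and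
`lab_own` the left hand side is `ρ (l, c + 1) k`, by `supp_own_right` and `sec_snd` the right
hand side is `(asec d0 ρ l (c + 1)).1 k = ρ (l, c + 1) k`; `left` is similar.
-/

open Set Topology

namespace Pool.Agent.H6.Gap

variable {D : Type}

theorem lab_own (d0 : D) (F : ℕ → ℤ → ℕ → D) (l k : ℕ) (c : ℤ) :
    lab d0 (l + 1 + k) F (2 ^ k * (2 * c + 1)) = F l c k := by
  induction k generalizing F with
  | zero =>
    have h1 : (2 * c + 1) % 2 = 1 := by omega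
    have h2 : (2 * c + 1 - 1) / 2 = c := by omega
    simp only [Nat.add_zero, pow_zero, one_mul, lab, h1, h2, if_true]
  | succ k ih =>
    have e : (2 : ℤ) ^ (k + 1) * (2 * c + 1) = 2 * (2 ^ k * (2 * c + 1)) := by ring
    have h1 : ¬ ((2 : ℤ) * (2 ^ k * (2 * c + 1))) % 2 = 1 := by omega
    have h2 : ((2 : ℤ) * (2 ^ k * (2 * c + 1))) / 2 = 2 ^ k * (2 * c + 1) := by omega
    have h3 : l + 1 + (k + 1) = (l + 1 + k) + 1 := rfl
    rw [h3, e, lab, if_neg h1, h2]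
    exact ih (fun l c k => F l c (k + 1))

theorem sec_snd (d0 : D) (ρ : ℕ × ℤ → ℕ → D) {t : ℝ} {n : ℕ} {i : ℤ} (h : t ∈ supp n i) :
    (sec d0 ρ t).2 n = asec d0 ρ n i := by
  have h1 : ¬ ∃ c, t = hub n c := by
    rintro ⟨c, rfl⟩
    exact hub_not_supp n c i h
  simp only [sec]
  rw [if_neg h1, round_of_supp h]

theorem sec_snd_hub (d0 : D) (ρ : ℕ × ℤ → ℕ → D) (l : ℕ) (c : ℤ) :
    (sec d0 ρ (hub l c)).2 l = dft d0 := by
  simp only [sec]
  exact if_pos ⟨c, rfl⟩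

/-- The right label of a section at an own variable. -/
theorem sec_right (d0 : D) (ρ : ℕ × ℤ → ℕ → D) {t : ℝ} {l k : ℕ} {c : ℤ}
    (h : t ∈ supp (l + 1 + k) (2 ^ k * (2 * c + 1))) :
    ((sec d0 ρ t).2 (l + 1 + k)).2.2 = ρ (l, c + 1) k := by
  rw [sec_snd d0 ρ h]
  exact lab_own d0 (fun l c k => ρ (l, c + 1) k) l k c

/-- The left label of a section at an own variable. -/
theorem sec_left (d0 : D) (ρ : ℕ × ℤ → ℕ → D) {t : ℝ} {l k : ℕ} {c : ℤ}
    (h : t ∈ supp (l + 1 + k) (2 ^ k * (2 * c + 1))) :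
    ((sec d0 ρ t).2 (l + 1 + k)).2.1 = ρ (l, c) k := by
  rw [sec_snd d0 ρ h]
  exact lab_own d0 (fun l c k => ρ (l, c) k) l k c

theorem sec_continuous (d0 : D) (ρ : ℕ × ℤ → ℕ → D) : Continuous (sec d0 ρ) := by
  refine continuous_of_basic (sec d0 ρ) continuous_id ?_
  intro t n i h
  have h' : t ∈ supp n i := h
  filter_upwards [(isOpen_supp n i).mem_nhds h'] with s hs
  rw [sec_snd d0 ρ hs, sec_snd d0 ρ h']

theorem sec_mem_Y {R : ℕ → Set (ℕ → D)} (d0 : D) {ρ : ℕ × ℤ → ℕ → D}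
    (hρ : ∀ v : ℕ × ℤ, ρ v ∈ R (typ v.1 v.2)) {t : ℝ} (ht : ∀ l c, t ≠ hub l c) :
    sec d0 ρ t ∈ Y R d0 := by
  refine ⟨?_, ?_, ?_, ?_, ?_, ?_⟩
  · intro n i h
    have h' : t ∈ supp n i := h
    rw [sec_snd d0 ρ h']
    exact hρ (n, i)
  · intro l c h
    exact absurd h (ht l c)
  · intro l c k h hl
    have h' : t ∈ supp (l + 1 + k) (2 ^ k * (2 * c + 1)) := h
    rw [sec_right d0 ρ h', sec_snd d0 ρ (supp_own_right h' hl)]
    rfl
  · intro l c k h hl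
    have h' : t ∈ supp (l + 1 + k) (2 ^ k * (2 * c + 1)) := h
    rw [sec_left d0 ρ h', sec_snd d0 ρ (supp_own_left h' hl)]
    rfl
  · intro l c h
    exact absurd h (ht l c)
  · intro l c h
    exact absurd h (ht l c)

end Pool.Agent.H6.Gap
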