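import Pool.Agent.H6.Gap.Defs

/-!
# The ideal of small sets

`Small lam R P` : `P` is covered by at most `lam` closed sets contained in `R`.

Proofs.  `mono` is trivial.  `iUnion`: choose for every `i : κ` the type `ι i` and the family
`C i`, use the family indexed by `Σ i, ι i`, whose cardinality is at most `lam * lam = lam`
(`Cardinal.mk_sigma`, `Cardinal.sum_le_iSup` or `Cardinal.sum_le_sum`, `Cardinal.mul_eq_self`).
`exists_clo_not_mem`: otherwise `clo P ⊆ R`, and the one-element family `clo P` shows that `P`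
is small (`clo P` is closed: `clo (clo P) ⊆ clo P` is immediate from the definition).
-/

open Set Topology Cardinal

namespace Pool.Agent.H6.Gap

variable {D : Type}

theorem subset_clo (P : Set (ℕ → D)) : P ⊆ clo P :=
  fun f hf _ => ⟨f, hf, fun _ _ => rfl⟩

theorem seqClosed_clo (P : Set (ℕ → D)) : SeqClosed (clo P) := by
  intro f hf n
  obtain ⟨g, hg, h1⟩ := hf n
  obtain ⟨g', hg', h2⟩ := hg n
  exact ⟨g', hg', fun k hk => (h2 k hk).trans (h1 k hk)⟩

theorem Small.mono {lam : Cardinal.{0}} {R P P' : Set (ℕ → D)} (h : Small lam R P)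
    (hP : P' ⊆ P) : Small lam R P' := by
  obtain ⟨ι, C, h1, h2, h3⟩ := h
  exact ⟨ι, C, h1, h2, hP.trans h3⟩

theorem Small.iUnion {lam : Cardinal.{0}} (hl : ℵ₀ ≤ lam) {κ : Type} (hκ : #κ ≤ lam)
    {R : Set (ℕ → D)} {P : κ → Set (ℕ → D)} (h : ∀ i, Small lam R (P i)) :
    Small lam R (⋃ i, P i) := by
  choose ι C h1 h2 h3 using h
  refine ⟨Σ i, ι i, fun p => C p.1 p.2, ?_, fun p => h2 p.1 p.2, ?_⟩
  · rw [Cardinal.mk_sigma]
    calc Cardinal.sum (fun i => #(ι i)) ≤ Cardinal.sum (fun _ : κ => lam) :=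
          Cardinal.sum_le_sum _ _ h1
      _ = #κ * lam := Cardinal.sum_const' κ lam
      _ ≤ lam * lam := mul_le_mul_left hκ lam
      _ = lam := Cardinal.mul_eq_self hl
  · refine iUnion_subset fun i f hf => ?_
    obtain ⟨j, hj⟩ := mem_iUnion.1 (h3 i hf)
    exact mem_iUnion.2 ⟨⟨i, j⟩, hj⟩

theorem exists_clo_not_mem {lam : Cardinal.{0}} (hl : ℵ₀ ≤ lam) {R P : Set (ℕ → D)}
    (hP : ¬ Small lam R P) : ∃ f ∈ clo P, f ∉ R := by
  by_contra h
  push Not at h
  refine hP ⟨Unit, fun _ => clo P, ?_, fun _ => ⟨seqClosed_clo P, h⟩, ?_⟩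
  · rw [Cardinal.mk_fintype]
    exact (Cardinal.natCast_lt_aleph0.le).trans hl
  · exact (subset_clo P).trans (subset_iUnion (fun _ : Unit => clo P) ())

end Pool.Agent.H6.Gap
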