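import Pool.Agent.H6.Gap.EssCube

/-!
# The topological sum of cube spaces

`T = Σ n, (S n).X` with the sum topology.  Metrizable: every `(S n).X` is metrizable (a `T0`
subspace of a pseudometrizable space), and a topological sum of metrizable spaces is metrizable
(e.g. `Metric.Sigma.metricSpace`, whose topology is the sum topology -- see
`Mathlib.Topology.MetricSpace.Gluing`).  `ZeroDim`: the image of a clopen set under `Sigma.mk n` is
clopen.  `f i ⟨n, x⟩ = (S n).fn i x` is continuous.  `Ess f k`: restrict `U`, `V` to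
the component number `k` (preimages under `Sigma.mk k`, which is a closed embedding) and use
`ess_cube (S k)`.
-/

open Set Topology

namespace Pool.Agent.H6.Gap

/-- The topological sum. -/
abbrev SumT (S : ∀ n, CubeSpace n) : Type := Σ n, (S n).X

/-- The coordinate functions on the sum. -/
noncomputable def sumFn (S : ∀ n, CubeSpace n) (i : ℕ) (x : SumT S) : ℝ := (S x.1).fn i x.2

theorem metrizable_X {n : ℕ} (S : CubeSpace n) : TopologicalSpace.MetrizableSpace S.X := by
  have := S.t0
  infer_instance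

theorem metrizable_sumT (S : ∀ n, CubeSpace n) :
    TopologicalSpace.MetrizableSpace (SumT S) := by
  have := fun n => metrizable_X (S n)
  let := fun n => TopologicalSpace.metrizableSpaceMetric (S n).X
  let : MetricSpace (SumT S) := Metric.Sigma.metricSpace
  infer_instance

/-- The inclusion of a component. -/
def gapInc (S : ∀ n, CubeSpace n) (n : ℕ) (x : (S n).X) : SumT S := ⟨n, x⟩

theorem gapInc_cont (S : ∀ n, CubeSpace n) (n : ℕ) : Continuous (gapInc S n) := by
  have h : Continuous (Sigma.mk (β := fun n => (S n).X) n) := continuous_sigmaMk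
  exact h

theorem gapInc_closed (S : ∀ n, CubeSpace n) (n : ℕ) : IsClosedMap (gapInc S n) := by
  have h : IsClosedMap (Sigma.mk (β := fun n => (S n).X) n) := isClosedMap_sigmaMk
  exact h

theorem gapInc_open (S : ∀ n, CubeSpace n) (n : ℕ) : IsOpenMap (gapInc S n) := by
  have h : IsOpenMap (Sigma.mk (β := fun n => (S n).X) n) := isOpenMap_sigmaMk
  exact h

theorem zeroDim_sumT (S : ∀ n, CubeSpace n) : ZeroDim (SumT S) := by
  rintro ⟨n, x⟩ U hU hx
  obtain ⟨C, hC, hxC, hCU⟩ := (S n).zd x (gapInc S n ⁻¹' U)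
    (hU.preimage (gapInc_cont S n)) hx
  refine ⟨gapInc S n '' C, ⟨?_, ?_⟩, ⟨x, hxC, rfl⟩, ?_⟩
  · exact gapInc_closed S n C hC.1
  · exact gapInc_open S n C hC.2
  · rintro _ ⟨y, hy, rfl⟩
    exact hCU hy

theorem continuous_sumFn (S : ∀ n, CubeSpace n) (i : ℕ) : Continuous (sumFn S i) := by
  refine continuous_sigma fun n => ?_
  exact continuous_fn (S n) i

theorem ess_sumT (S : ∀ n, CubeSpace n) (k : ℕ) : Ess (sumFn S) k := by
  intro U V h1 h2 h3 h4
  have g1 : ∀ i < k, Disjoint (closure (gapInc S k ⁻¹' U i)) (gapInc S k ⁻¹' V i) := fun i hi =>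
    ((h1 i hi).preimage (gapInc S k)).mono_left
      ((gapInc_cont S k).closure_preimage_subset (U i))
  have g2 : ∀ i < k, Disjoint (gapInc S k ⁻¹' U i) (closure (gapInc S k ⁻¹' V i)) := fun i hi =>
    ((h2 i hi).preimage (gapInc S k)).mono_right
      ((gapInc_cont S k).closure_preimage_subset (V i))
  obtain ⟨x, hx⟩ := ess_cube (S k) (fun i => gapInc S k ⁻¹' U i) (fun i => gapInc S k ⁻¹' V i)
    g1 g2 (fun i hi x hx => h3 i hi ⟨k, x⟩ hx) (fun i hi x hx => h4 i hi ⟨k, x⟩ hx)
  exact ⟨⟨k, x⟩, hx⟩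

end Pool.Agent.H6.Gap
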