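import Pool.Agent.H6.Gap.Dyad

/-!
# The subspace `Y` has a base of clopen sets

`clopen_cyl`: the trace of `cyl n i x` on `Y` is closed in `Y`.  Let `z ∈ Y` be in the closure of
the trace.  If `z.1 ∈ supp n i` then `z.2 n = x`: otherwise `cyl n i (z.2 n)` is a neighbourhood
of `z` disjoint from `cyl n i x`.  So suppose that `z.1 ∉ supp n i`.  As `z.1` is in the closure of
`supp n i`, `supp_bounds` gives `z.1 = hub n i` or `z.1 = hub n (i - 1)`.
Let `z.1 = hub n (i - 1) = hub l c` with `l = n`, `c = i - 1`.  Claim: `(z.2 (l+1+k)).2.2 = x.1 k`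
for all `k`.  The set `cyl (l+1+k) (2^k*(2c+1)) (z.2 (l+1+k))` is a neighbourhood of `z`
(`hub_mem_own`), so it contains a point `z' ∈ Y ∩ cyl n i x`.  Then `hub l c < z'.1` by
`supp_bounds`, so `IsY.right` for `z'` gives
`(z.2 (l+1+k)).2.2 = (z'.2 (l+1+k)).2.2 = (z'.2 l).1 k = x.1 k`.
Hence the sequence in `IsY.hubR` (for `z`) is `x.1`; but `x.1 = (z'.2 n).1 ∈ R (typ n i)` by
`IsY.mem`, and `typ l (c + 1) = typ n i`; contradiction.  The other case is symmetric
(`l = n`, `c = i`, `IsY.left`, `IsY.hubL`).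
-/

open Set Topology

namespace Pool.Agent.H6.Gap

variable {D : Type}

theorem clopen_cyl (R : ℕ → Set (ℕ → D)) (d0 : D) (n : ℕ) (i : ℤ) (x : Idx D) :
    IsClopen {z : Y R d0 | (z : Z D) ∈ cyl n i x} := by
  constructor
  swap
  · exact (isOpen_cyl n i x).preimage continuous_subtype_val
  refine isClosed_of_closure_subset fun z hz => ?_
  have key : ∀ G : Set (Z D), IsOpen G → (z : Z D) ∈ G →
      ∃ z' : Y R d0, (z' : Z D) ∈ G ∧ (z' : Z D) ∈ cyl n i x := by
    intro G hG hzG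
    obtain ⟨z', h1, h2⟩ := mem_closure_iff.1 hz _ (hG.preimage continuous_subtype_val) hzG
    exact ⟨z', h1, h2⟩
  show (z : Z D) ∈ cyl n i x
  by_cases hs : (z : Z D).1 ∈ supp n i
  · obtain ⟨z', h1, h2⟩ := key (cyl n i ((z : Z D).2 n)) (isOpen_cyl _ _ _) ⟨hs, rfl⟩
    exact ⟨hs, h1.2.symm.trans h2.2⟩
  exfalso
  have hcase : (z : Z D).1 = hub n (i - 1) ∨ (z : Z D).1 = hub n i := by
    rcases lt_trichotomy (z : Z D).1 (hub n (i - 1)) with h | h | h
    · obtain ⟨z', h1, h2⟩ := key ((fun z : Z D => z.1) ⁻¹' Iio (hub n (i - 1)))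
        (isOpen_fst_preimage isOpen_Iio) h
      exact absurd (supp_bounds.1 h2.1).1 (not_lt.2 (le_of_lt h1))
    · exact Or.inl h
    · rcases lt_trichotomy (z : Z D).1 (hub n i) with h' | h' | h'
      · exact absurd (supp_bounds.2 ⟨h, h'⟩) hs
      · exact Or.inr h'
      · obtain ⟨z', h1, h2⟩ := key ((fun z : Z D => z.1) ⁻¹' Ioi (hub n i))
          (isOpen_fst_preimage isOpen_Ioi) h'
        exact absurd (supp_bounds.1 h2.1).2 (not_lt.2 (le_of_lt h1))
  have hzY : IsY R d0 (z : Z D) := z.2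
  have hx : x.1 ∈ R (typ n i) := by
    obtain ⟨z', h1, h2⟩ := key Set.univ isOpen_univ (Set.mem_univ _)
    have h3 : IsY R d0 (z' : Z D) := z'.2
    have h4 := h3.mem n i h2.1
    rw [h2.2] at h4
    exact h4
  rcases hcase with ht | ht
  · have hc : ∀ k, ((z : Z D).2 (n + 1 + k)).2.2 = x.1 k := by
      intro k
      obtain ⟨z', h1, h2⟩ := key (cyl (n + 1 + k) (2 ^ k * (2 * (i - 1) + 1))
        ((z : Z D).2 (n + 1 + k))) (isOpen_cyl _ _ _)
        ⟨by rw [ht]; exact hub_mem_own n k (i - 1), rfl⟩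
      have h3 : IsY R d0 (z' : Z D) := z'.2
      have h4 := h3.right n (i - 1) k h1.1 (supp_bounds.1 h2.1).1
      rw [h1.2, h2.2] at h4
      exact h4
    have h5 := hzY.hubR n (i - 1) ht
    rw [sub_add_cancel, funext hc] at h5
    exact h5 hx
  · have hc : ∀ k, ((z : Z D).2 (n + 1 + k)).2.1 = x.1 k := by
      intro k
      obtain ⟨z', h1, h2⟩ := key (cyl (n + 1 + k) (2 ^ k * (2 * i + 1))
        ((z : Z D).2 (n + 1 + k))) (isOpen_cyl _ _ _)
        ⟨by rw [ht]; exact hub_mem_own n k i, rfl⟩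
      have h3 : IsY R d0 (z' : Z D) := z'.2
      have h4 := h3.left n i k h1.1 (supp_bounds.1 h2.1).2
      rw [h1.2, h2.2] at h4
      exact h4
    have h5 := hzY.hubL n i ht
    rw [funext hc] at h5
    exact h5 hx

end Pool.Agent.H6.Gap
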